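import Mathlib
import Pool.Agent.H90.Shot.Prob

/-!
# Neighbourhoods, codegrees, 3-paths, inner paths of 5-cycles (deterministic part)
-/

set_option autoImplicit false

open Finset Classical

namespace Pool.Agent.H49.Shot

open Pool.Agent.H90.Shot

variable {V : Type*} [Fintype V]

/-- neighbourhood -/
noncomputable def nbr (G : SimpleGraph V) (v : V) : Finset V := univ.filter fun z => G.Adj v z

theorem mem_nbr {G : SimpleGraph V} {v z : V} : z ∈ nbr G v ↔ G.Adj v z := by
  unfold nbr
  rw [Finset.mem_filter]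
  exact ⟨fun h => h.2, fun h => ⟨Finset.mem_univ _, h⟩⟩

/-- common neighbours -/
noncomputable def cod (G : SimpleGraph V) (u v : V) : Finset V :=
  univ.filter fun z => G.Adj u z ∧ G.Adj z v

theorem mem_cod {G : SimpleGraph V} {u v z : V} : z ∈ cod G u v ↔ G.Adj u z ∧ G.Adj z v := by
  unfold cod
  rw [Finset.mem_filter]
  exact ⟨fun h => h.2, fun h => ⟨Finset.mem_univ _, h⟩⟩

/-- 3-paths -/
noncomputable def pth (G : SimpleGraph V) (u v : V) : Finset (V × V) :=
  univ.filter fun z : V × V =>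
    G.Adj u z.1 ∧ G.Adj z.1 z.2 ∧ G.Adj z.2 v ∧ z.1 ≠ v ∧ z.2 ≠ u

theorem mem_pth {G : SimpleGraph V} {u v : V} {z : V × V} :
    z ∈ pth G u v ↔ G.Adj u z.1 ∧ G.Adj z.1 z.2 ∧ G.Adj z.2 v ∧ z.1 ≠ v ∧ z.2 ≠ u := by
  unfold pth
  rw [Finset.mem_filter]
  exact ⟨fun h => h.2, fun h => ⟨Finset.mem_univ _, h⟩⟩

/-- codegrees at most `k` -/
def CodegLe (G : SimpleGraph V) (k : ℕ) : Prop := ∀ u v, u ≠ v → (cod G u v).card ≤ k

/-- number of 3-paths at most `k` -/
def Path3Le (G : SimpleGraph V) (k : ℕ) : Prop := ∀ u v, u ≠ v → (pth G u v).card ≤ k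

/-- inner paths of the 5-cycles with first dart `(v, x)` -/
noncomputable def inner (G : SimpleGraph V) (v x : V) : Finset (V × V × V) :=
  univ.filter fun z => (G.Adj x z.1 ∧ G.Adj z.1 z.2.1 ∧ G.Adj z.2.1 z.2.2 ∧ G.Adj z.2.2 v) ∧
    (z.1 ≠ v ∧ z.2.1 ≠ v ∧ z.2.1 ≠ x ∧ z.2.2 ≠ x ∧ z.1 ≠ z.2.2)

theorem mem_inner {G : SimpleGraph V} {v x : V} {z : V × V × V} : z ∈ inner G v x ↔
    (G.Adj x z.1 ∧ G.Adj z.1 z.2.1 ∧ G.Adj z.2.1 z.2.2 ∧ G.Adj z.2.2 v) ∧
    (z.1 ≠ v ∧ z.2.1 ≠ v ∧ z.2.1 ≠ x ∧ z.2.2 ≠ x ∧ z.1 ≠ z.2.2) := by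
  unfold inner
  rw [Finset.mem_filter]
  exact ⟨fun h => h.2, fun h => ⟨Finset.mem_univ _, h⟩⟩

/-- two sets of inner vertices meet -/
def Confl {V : Type*} (A B : Finset V) : Prop := ∃ w, w ∈ A ∧ w ∈ B

/-- inner vertices of a 3-path -/
noncomputable def in2 (z : V × V) : Finset V := univ.filter fun w => w = z.1 ∨ w = z.2

theorem mem_in2 {z : V × V} {w : V} : w ∈ in2 z ↔ w = z.1 ∨ w = z.2 := by
  unfold in2
  rw [Finset.mem_filter]
  exact ⟨fun h => h.2, fun h => ⟨Finset.mem_univ _, h⟩⟩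

/-- inner vertices of a 4-path -/
noncomputable def in3 (z : V × V × V) : Finset V :=
  univ.filter fun w => w = z.1 ∨ w = z.2.1 ∨ w = z.2.2

theorem mem_in3 {z : V × V × V} {w : V} : w ∈ in3 z ↔ w = z.1 ∨ w = z.2.1 ∨ w = z.2.2 := by
  unfold in3
  rw [Finset.mem_filter]
  exact ⟨fun h => h.2, fun h => ⟨Finset.mem_univ _, h⟩⟩

theorem pth_conf {G : SimpleGraph V} {k : ℕ} (hk : CodegLe G k) {u v : V} (i : V × V) :
    ((pth G u v).filter fun j => Confl (in2 i) (in2 j)).card ≤ 4 * k := by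
  set X := pth G u v with hX
  have c1 : ∀ w, (X.filter fun z => z.1 = w).card ≤ k := by
    intro w
    by_cases hw : w = v
    · have : (X.filter fun z => z.1 = w) = ∅ := by
        refine Finset.filter_false_of_mem ?_
        intro z hz
        rw [hX, mem_pth] at hz
        rw [hw]
        exact hz.2.2.2.1
      rw [this]
      simp
    · refine le_trans ?_ (hk w v hw)
      refine Finset.card_le_card_of_injOn (fun z => z.2) ?_ ?_
      · intro z hz
        rw [Finset.mem_coe, Finset.mem_filter, hX, mem_pth] at hz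
        rw [Finset.mem_coe, mem_cod]
        refine ⟨?_, hz.1.2.2.1⟩
        rw [← hz.2]
        exact hz.1.2.1
      · intro z hz z' hz' hzz
        rw [Finset.mem_coe, Finset.mem_filter] at hz hz'
        exact Prod.ext (hz.2.trans hz'.2.symm) hzz
  have c2 : ∀ w, (X.filter fun z => z.2 = w).card ≤ k := by
    intro w
    by_cases hw : w = u
    · have : (X.filter fun z => z.2 = w) = ∅ := by
        refine Finset.filter_false_of_mem ?_
        intro z hz
        rw [hX, mem_pth] at hz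
        rw [hw]
        exact hz.2.2.2.2
      rw [this]
      simp
    · refine le_trans ?_ (hk u w (fun h => hw h.symm))
      refine Finset.card_le_card_of_injOn (fun z => z.1) ?_ ?_
      · intro z hz
        rw [Finset.mem_coe, Finset.mem_filter, hX, mem_pth] at hz
        rw [Finset.mem_coe, mem_cod]
        refine ⟨hz.1.1, ?_⟩
        rw [← hz.2]
        exact hz.1.2.1
      · intro z hz z' hz' hzz
        rw [Finset.mem_coe, Finset.mem_filter] at hz hz'
        exact Prod.ext hzz (hz.2.trans hz'.2.symm)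
  have c3 : (X.filter fun j => Confl (in2 i) (in2 j)) ⊆
      ((X.filter fun z => z.1 = i.1) ∪ (X.filter fun z => z.1 = i.2)) ∪
      ((X.filter fun z => z.2 = i.1) ∪ (X.filter fun z => z.2 = i.2)) := by
    intro j hj
    rw [Finset.mem_filter] at hj
    obtain ⟨hjX, w, hw, hw'⟩ := hj
    simp only [Finset.mem_union, Finset.mem_filter]
    rw [mem_in2] at hw hw'
    rcases hw with h | h <;> rcases hw' with h' | h'
    · exact Or.inl (Or.inl ⟨hjX, h'.symm.trans h⟩)
    · exact Or.inr (Or.inl ⟨hjX, h'.symm.trans h⟩)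
    · exact Or.inl (Or.inr ⟨hjX, h'.symm.trans h⟩)
    · exact Or.inr (Or.inr ⟨hjX, h'.symm.trans h⟩)
  refine (Finset.card_le_card c3).trans ((Finset.card_union_le _ _).trans ?_)
  have d1 := Finset.card_union_le (X.filter fun z => z.1 = i.1) (X.filter fun z => z.1 = i.2)
  have d2 := Finset.card_union_le (X.filter fun z => z.2 = i.1) (X.filter fun z => z.2 = i.2)
  have e1 := c1 i.1
  have e2 := c1 i.2
  have e3 := c2 i.1
  have e4 := c2 i.2
  omega

theorem ncyc_le_inner (G : SimpleGraph V) (v x : V) :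
    ncyc G v x ≤ (inner G v x).card := by
  unfold ncyc
  refine Finset.card_le_card_of_injOn (fun t => (t 2, t 3, t 4)) ?_ ?_
  · intro t ht
    obtain ⟨-, ⟨hinj, hadj⟩, h0, h1⟩ := Finset.mem_filter.mp (Finset.mem_coe.mp ht)
    have a1 := hadj 1
    have a2 := hadj 2
    have a3 := hadj 3
    have a4 := hadj 4
    rw [h1] at a1
    have e4 : t (4 + 1) = t 0 := rfl
    rw [e4, h0] at a4
    have hne : ∀ i j : Fin 5, i ≠ j → t i ≠ t j := fun i j hij h => hij (hinj h)
    rw [Finset.mem_coe, mem_inner]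
    refine ⟨⟨a1, a2, a3, a4⟩, ?_, ?_, ?_, ?_, ?_⟩
    · rw [← h0]; exact hne 2 0 (by decide)
    · rw [← h0]; exact hne 3 0 (by decide)
    · rw [← h1]; exact hne 3 1 (by decide)
    · rw [← h1]; exact hne 4 1 (by decide)
    · exact hne 2 4 (by decide)
  · intro t ht t' ht' h
    obtain ⟨-, -, h0, h1⟩ := Finset.mem_filter.mp (Finset.mem_coe.mp ht)
    obtain ⟨-, -, h0', h1'⟩ := Finset.mem_filter.mp (Finset.mem_coe.mp ht')
    simp only [Prod.mk.injEq] at h
    funext i
    fin_cases i
    · exact h0.trans h0'.symm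
    · exact h1.trans h1'.symm
    · exact h.1
    · exact h.2.1
    · exact h.2.2

theorem inner_conf {G : SimpleGraph V} {k k₂ : ℕ} (hk : CodegLe G k) (hk₂ : Path3Le G k₂)
    {v x : V} (i : V × V × V) :
    ((inner G v x).filter fun j =>
      Confl (in3 i) (in3 j)).card ≤
      3 * (2 * k₂ + k * k) := by
  set X := inner G v x with hX
  have c1 : ∀ w, (X.filter fun z => z.1 = w).card ≤ k₂ := by
    intro w
    by_cases hw : w = v
    · have : (X.filter fun z => z.1 = w) = ∅ := by
        refine Finset.filter_false_of_mem ?_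
        intro z hz
        rw [hX, mem_inner] at hz
        rw [hw]
        exact hz.2.1
      rw [this]
      simp
    · refine le_trans ?_ (hk₂ w v hw)
      refine Finset.card_le_card_of_injOn (fun z => z.2) ?_ ?_
      · intro z hz
        rw [Finset.mem_coe, Finset.mem_filter, hX, mem_inner] at hz
        obtain ⟨⟨⟨a1, a2, a3, a4⟩, b1, b2, b3, b4, b5⟩, hw'⟩ := hz
        rw [Finset.mem_coe, mem_pth, ← hw']
        exact ⟨a2, a3, a4, b2, b5.symm⟩
      · intro z hz z' hz' hzz
        rw [Finset.mem_coe, Finset.mem_filter] at hz hz'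
        exact Prod.ext (hz.2.trans hz'.2.symm) hzz
  have c3 : ∀ w, (X.filter fun z => z.2.2 = w).card ≤ k₂ := by
    intro w
    by_cases hw : w = x
    · have : (X.filter fun z => z.2.2 = w) = ∅ := by
        refine Finset.filter_false_of_mem ?_
        intro z hz
        rw [hX, mem_inner] at hz
        rw [hw]
        exact hz.2.2.2.2.1
      rw [this]
      simp
    · refine le_trans ?_ (hk₂ x w (fun h => hw h.symm))
      refine Finset.card_le_card_of_injOn (fun z => (z.1, z.2.1)) ?_ ?_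
      · intro z hz
        rw [Finset.mem_coe, Finset.mem_filter, hX, mem_inner] at hz
        obtain ⟨⟨⟨a1, a2, a3, a4⟩, b1, b2, b3, b4, b5⟩, hw'⟩ := hz
        rw [Finset.mem_coe, mem_pth, ← hw']
        exact ⟨a1, a2, a3, b5, b3⟩
      · intro z hz z' hz' hzz
        rw [Finset.mem_coe, Finset.mem_filter] at hz hz'
        simp only [Prod.mk.injEq] at hzz
        exact Prod.ext hzz.1 (Prod.ext hzz.2 (hz.2.trans hz'.2.symm))
  have c2 : ∀ w, (X.filter fun z => z.2.1 = w).card ≤ k * k := by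
    intro w
    by_cases hw : w = v
    · have : (X.filter fun z => z.2.1 = w) = ∅ := by
        refine Finset.filter_false_of_mem ?_
        intro z hz
        rw [hX, mem_inner] at hz
        rw [hw]
        exact hz.2.2.1
      rw [this]
      simp
    · by_cases hw' : w = x
      · have : (X.filter fun z => z.2.1 = w) = ∅ := by
          refine Finset.filter_false_of_mem ?_
          intro z hz
          rw [hX, mem_inner] at hz
          rw [hw']
          exact hz.2.2.2.1
        rw [this]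
        simp
      · have h1 := hk x w (fun h => hw' h.symm)
        have h2 := hk w v hw
        refine le_trans ?_ (Nat.mul_le_mul h1 h2)
        rw [← Finset.card_product]
        refine Finset.card_le_card_of_injOn (fun z => (z.1, z.2.2)) ?_ ?_
        · intro z hz
          rw [Finset.mem_coe, Finset.mem_filter, hX, mem_inner] at hz
          obtain ⟨⟨⟨a1, a2, a3, a4⟩, b1, b2, b3, b4, b5⟩, hw'⟩ := hz
          rw [Finset.mem_coe, Finset.mem_product, mem_cod, mem_cod, ← hw']
          exact ⟨⟨a1, a2⟩, ⟨a3, a4⟩⟩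
        · intro z hz z' hz' hzz
          rw [Finset.mem_coe, Finset.mem_filter] at hz hz'
          simp only [Prod.mk.injEq] at hzz
          exact Prod.ext hzz.1 (Prod.ext (hz.2.trans hz'.2.symm) hzz.2)
  have hw : ∀ w, (X.filter fun z => z.1 = w ∨ z.2.1 = w ∨ z.2.2 = w).card ≤ 2 * k₂ + k * k := by
    intro w
    have hs : (X.filter fun z => z.1 = w ∨ z.2.1 = w ∨ z.2.2 = w) ⊆
        (X.filter fun z => z.1 = w) ∪ ((X.filter fun z => z.2.1 = w) ∪
          (X.filter fun z => z.2.2 = w)) := by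
      intro j hj
      rw [Finset.mem_filter] at hj
      simp only [Finset.mem_union, Finset.mem_filter]
      rcases hj.2 with h | h | h
      · exact Or.inl ⟨hj.1, h⟩
      · exact Or.inr (Or.inl ⟨hj.1, h⟩)
      · exact Or.inr (Or.inr ⟨hj.1, h⟩)
    have h1 := Finset.card_le_card hs
    have h2 := Finset.card_union_le (X.filter fun z => z.1 = w)
      ((X.filter fun z => z.2.1 = w) ∪ (X.filter fun z => z.2.2 = w))
    have h3 := Finset.card_union_le (X.filter fun z => z.2.1 = w) (X.filter fun z => z.2.2 = w)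
    have e1 := c1 w
    have e2 := c2 w
    have e3 := c3 w
    omega
  have hs : (X.filter fun j => Confl (in3 i) (in3 j)) ⊆
      (X.filter fun z => z.1 = i.1 ∨ z.2.1 = i.1 ∨ z.2.2 = i.1) ∪
      ((X.filter fun z => z.1 = i.2.1 ∨ z.2.1 = i.2.1 ∨ z.2.2 = i.2.1) ∪
       (X.filter fun z => z.1 = i.2.2 ∨ z.2.1 = i.2.2 ∨ z.2.2 = i.2.2)) := by
    intro j hj
    rw [Finset.mem_filter] at hj
    obtain ⟨hjX, w, hw, hw'⟩ := hj
    simp only [Finset.mem_union, Finset.mem_filter]
    rw [mem_in3] at hw hw'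
    have hw'' : j.1 = w ∨ j.2.1 = w ∨ j.2.2 = w := by
      rcases hw' with h | h | h
      · exact Or.inl h.symm
      · exact Or.inr (Or.inl h.symm)
      · exact Or.inr (Or.inr h.symm)
    rcases hw with h | h | h
    · rw [h] at hw''
      exact Or.inl ⟨hjX, hw''⟩
    · rw [h] at hw''
      exact Or.inr (Or.inl ⟨hjX, hw''⟩)
    · rw [h] at hw''
      exact Or.inr (Or.inr ⟨hjX, hw''⟩)
  have h1 := Finset.card_le_card hs
  have h2 := Finset.card_union_le
    (X.filter fun z => z.1 = i.1 ∨ z.2.1 = i.1 ∨ z.2.2 = i.1)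
      ((X.filter fun z => z.1 = i.2.1 ∨ z.2.1 = i.2.1 ∨ z.2.2 = i.2.1) ∪
       (X.filter fun z => z.1 = i.2.2 ∨ z.2.1 = i.2.2 ∨ z.2.2 = i.2.2))
  have h3 := Finset.card_union_le
    (X.filter fun z => z.1 = i.2.1 ∨ z.2.1 = i.2.1 ∨ z.2.2 = i.2.1)
       (X.filter fun z => z.1 = i.2.2 ∨ z.2.1 = i.2.2 ∨ z.2.2 = i.2.2)
  have e1 := hw i.1
  have e2 := hw i.2.1
  have e3 := hw i.2.2
  omega

end Pool.Agent.H49.Shot
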