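import Mathlib
import Pool.Agent.H90.Shot.Prob

/-!
# Lower tail for the number of edges between two adaptively revealed sets
-/

set_option autoImplicit false

open Finset Classical

namespace Pool.Agent.H49.Shot

open Pool.Agent.H90.Shot

theorem Pr_cross {α : Type*} {p : ℝ} (h0 : 0 ≤ p) (h1 : p ≤ 1) (U : Finset α)
    (Z : Finset α → Finset α) (hZU : ∀ E, E ⊆ U → Z E ⊆ U)
    (hZ : ∀ E, E ⊆ U → ∀ E', E' ⊆ U → (∀ e, e ∉ Z E → (e ∈ E' ↔ e ∈ E)) → Z E' = Z E) (y : ℝ) :
    Pr p U (fun S => y ≤ p * (Z S).card ∧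
      ∀ T, T ⊆ S → T ⊆ Z S → (T.card : ℝ) ≤ p * (Z S).card / 2) ≤ Real.exp (-(y / 8)) := by
  have hsub : ∀ E, E ⊆ U → ∀ S, S ⊆ Z E → (E \ Z E) ∪ S ⊆ U := by
    intro E hE S hS
    exact Finset.union_subset (Finset.sdiff_subset.trans hE) (hS.trans (hZU E hE))
  have hZ' : ∀ E, E ⊆ U → ∀ S, S ⊆ Z E → Z ((E \ Z E) ∪ S) = Z E := by
    intro E hE S hS
    refine hZ E hE _ (hsub E hE S hS) ?_
    intro e he
    rw [Finset.mem_union, Finset.mem_sdiff]
    constructor
    · rintro (h | h)
      · exact h.1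
      · exact absurd (hS h) he
    · intro h
      exact Or.inl ⟨h, he⟩
  refine Pr_resample_le h0 h1 U Z hZU hZ' ?_
  intro E hE
  by_cases hy : y ≤ p * (Z E).card
  · refine le_trans (Pr_mono h0 h1 (Q := fun S => ((S ∩ Z E).card : ℝ) ≤ p * (Z E).card / 2) ?_)
      ((Pr_card_le h0 h1 (le_refl (Z E))).trans (Real.exp_le_exp.mpr (by linarith)))
    intro S hS h
    rw [hZ' E hE S hS] at h
    refine h.2 (S ∩ Z E) ?_ Finset.inter_subset_right
    exact Finset.inter_subset_left.trans Finset.subset_union_right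
  · have : Pr p (Z E) (fun S => y ≤ p * (Z ((E \ Z E) ∪ S)).card ∧
      ∀ T, T ⊆ (E \ Z E) ∪ S → T ⊆ Z ((E \ Z E) ∪ S) →
        (T.card : ℝ) ≤ p * (Z ((E \ Z E) ∪ S)).card / 2) = 0 := by
      refine (Ex_congr (fun S hS => ind_false ?_)).trans (Ex_const p (Z E) 0)
      rw [hZ' E hE S hS]
      exact fun h => hy h.1
    rw [this]
    exact (Real.exp_pos _).le

/-- Edges between two sets which do not depend on these edges. -/
theorem GP_cross {n : ℕ} {p : ℝ} (h0 : 0 ≤ p) (h1 : p ≤ 1)
    (X Y : SimpleGraph (Fin n) → Finset (Fin n)) (hd : ∀ G, ∀ a ∈ X G, a ∉ Y G)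
    (hloc : ∀ G G' : SimpleGraph (Fin n),
      (∀ a b, ¬ (a ∈ X G ∧ b ∈ Y G) → ¬ (b ∈ X G ∧ a ∈ Y G) → (G'.Adj a b ↔ G.Adj a b)) →
      X G' = X G ∧ Y G' = Y G) (y : ℝ) :
    GP n p (fun G => y ≤ p * ((X G).card * (Y G).card) ∧
      (((X G ×ˢ Y G).filter (fun z => G.Adj z.1 z.2)).card : ℝ) ≤
        p * ((X G).card * (Y G).card) / 2) ≤ Real.exp (-(y / 8)) := by
  set g : Finset (Sym2 (Fin n)) → SimpleGraph (Fin n) := fun S =>
    SimpleGraph.fromEdgeSet (S : Set (Sym2 (Fin n))) with hg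
  set Z : Finset (Sym2 (Fin n)) → Finset (Sym2 (Fin n)) := fun S =>
    (X (g S) ×ˢ Y (g S)).image (fun z => s(z.1, z.2)) with hZdef
  have hinj : ∀ G, Set.InjOn (fun z : Fin n × Fin n => s(z.1, z.2))
      ((X G ×ˢ Y G : Finset (Fin n × Fin n)) : Set (Fin n × Fin n)) := by
    intro G z hz z' hz' h
    rw [Finset.mem_coe, Finset.mem_product] at hz hz'
    simp only [Sym2.eq_iff] at h
    rcases h with ⟨h1, h2⟩ | ⟨h1, h2⟩
    · exact Prod.ext h1 h2
    · exact absurd hz'.2 (by rw [← h1]; exact hd G z.1 hz.1)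
  have hZc : ∀ S, (Z S).card = (X (g S)).card * (Y (g S)).card := by
    intro S
    rw [hZdef]
    simp only
    rw [Finset.card_image_of_injOn (hinj (g S)), Finset.card_product]
  have hmemZ : ∀ S a b, s(a, b) ∈ Z S ↔
      (a ∈ X (g S) ∧ b ∈ Y (g S)) ∨ (b ∈ X (g S) ∧ a ∈ Y (g S)) := by
    intro S a b
    rw [hZdef]
    simp only
    rw [Finset.mem_image]
    constructor
    · rintro ⟨z, hz, hzz⟩
      rw [Finset.mem_product] at hz
      rw [Sym2.eq_iff] at hzz
      rcases hzz with ⟨h1, h2⟩ | ⟨h1, h2⟩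
      · left; rw [← h1, ← h2]; exact hz
      · right; rw [← h1, ← h2]; exact hz
    · rintro (h | h)
      · exact ⟨(a, b), Finset.mem_product.mpr h, rfl⟩
      · exact ⟨(b, a), Finset.mem_product.mpr h, Sym2.eq_swap⟩
  have hmain := Pr_cross h0 h1 (pairs n) Z ?_ ?_ y
  · rw [GP_eq]
    refine le_trans (Pr_mono h0 h1 ?_) hmain
    intro S hS h
    refine ⟨?_, ?_⟩
    · rw [hZc]
      push_cast
      exact h.1
    · intro T hTS hTZ
      rw [hZc]
      push_cast
      refine le_trans ?_ h.2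
      have hTc : T.card ≤ ((X (g S) ×ˢ Y (g S)).filter (fun z => (g S).Adj z.1 z.2)).card := by
        have hT : T ⊆ ((X (g S) ×ˢ Y (g S)).filter (fun z => (g S).Adj z.1 z.2)).image
            (fun z => s(z.1, z.2)) := by
          intro e he
          have heZ := hTZ he
          rw [hZdef] at heZ
          simp only at heZ
          rw [Finset.mem_image] at heZ
          obtain ⟨z, hz, hze⟩ := heZ
          rw [Finset.mem_image]
          refine ⟨z, ?_, hze⟩
          rw [Finset.mem_filter]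
          refine ⟨hz, ?_⟩
          rw [hg]
          simp only
          rw [SimpleGraph.fromEdgeSet_adj]
          refine ⟨?_, ?_⟩
          · rw [hze]; exact Finset.mem_coe.mpr (hTS he)
          · intro hzz
            rw [Finset.mem_product] at hz
            exact hd _ z.1 hz.1 (by rw [hzz]; exact hz.2)
        exact (Finset.card_le_card hT).trans Finset.card_image_le
      refine Nat.cast_le.mpr (hTc.trans (le_of_eq ?_))
      congr
  · intro E hE e he
    rw [hZdef] at he
    simp only at he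
    rw [Finset.mem_image] at he
    obtain ⟨z, hz, hze⟩ := he
    rw [mem_pairs, ← hze, Sym2.mk_isDiag_iff]
    intro hzz
    rw [Finset.mem_product] at hz
    exact hd _ z.1 hz.1 (by rw [hzz]; exact hz.2)
  · intro E hE E' hE' h
    have := hloc (g E) (g E') ?_
    · rw [hZdef]
      simp only
      rw [this.1, this.2]
    · intro a b hab hba
      have hn : s(a, b) ∉ Z E := by
        rw [hmemZ]
        rintro (h | h)
        · exact hab h
        · exact hba h
      have := h _ hn
      rw [hg]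
      simp only
      rw [SimpleGraph.fromEdgeSet_adj, SimpleGraph.fromEdgeSet_adj, Finset.mem_coe,
        Finset.mem_coe, this]

/-- Neighbours of a vertex in a fixed set. -/
theorem GP_nbr_low {n : ℕ} {p : ℝ} (h0 : 0 ≤ p) (h1 : p ≤ 1) (v : Fin n) (W : Finset (Fin n))
    (hv : v ∉ W) :
    GP n p (fun G => ((W.filter (fun z => G.Adj v z)).card : ℝ) ≤ p * W.card / 2) ≤
      Real.exp (-(p * W.card / 8)) := by
  have h := GP_cross h0 h1 (n := n) (fun _ => {v}) (fun _ => W)
    (fun G a ha => by rw [Finset.mem_singleton] at ha; rw [ha]; exact hv)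
    (fun G G' _ => ⟨rfl, rfl⟩) (p * W.card)
  refine le_trans (GP_mono h0 h1 (fun G hG => ?_)) h
  rw [Finset.card_singleton]
  refine ⟨by push_cast; linarith, ?_⟩
  have : ((({v} : Finset (Fin n)) ×ˢ W).filter (fun z => G.Adj z.1 z.2)).card =
      (W.filter (fun z => G.Adj v z)).card := by
    refine Finset.card_bij' (fun z _ => z.2) (fun z _ => (v, z)) ?_ ?_ ?_ ?_
    · intro z hz
      rw [Finset.mem_filter, Finset.mem_product, Finset.mem_singleton] at hz
      rw [Finset.mem_filter]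
      refine ⟨hz.1.2, ?_⟩
      rw [← hz.1.1]
      exact hz.2
    · intro z hz
      rw [Finset.mem_filter] at hz
      rw [Finset.mem_filter, Finset.mem_product, Finset.mem_singleton]
      exact ⟨⟨rfl, hz.1⟩, hz.2⟩
    · intro z hz
      rw [Finset.mem_filter, Finset.mem_product, Finset.mem_singleton] at hz
      exact Prod.ext hz.1.1.symm rfl
    · intro z hz
      rfl
  rw [this]
  push_cast
  linarith

end Pool.Agent.H49.Shot
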