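import Mathlib
import Pool.Agent.H49.Shot.Base
import Pool.Agent.H49.Shot.Cross

/-!
# Lower tail for the number of 5-cycles through a dart
-/

set_option autoImplicit false

open Finset Classical

namespace Pool.Agent.H49.Shot

open Pool.Agent.H90.Shot

theorem card_le_ncyc {V : Type*} [Fintype V] {G : SimpleGraph V} {v x : V} {ι : Type*}
    (F : Finset ι) (f : ι → Fin 5 → V) (hinj : Set.InjOn f F)
    (h : ∀ i ∈ F, IsC5 G (f i) ∧ f i 0 = v ∧ f i 1 = x) : F.card ≤ ncyc G v x := by
  unfold ncyc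
  refine Finset.card_le_card_of_injOn f ?_ hinj
  intro i hi
  rw [Finset.mem_coe, Finset.mem_filter]
  exact ⟨Finset.mem_univ _, h i (Finset.mem_coe.mp hi)⟩

variable {n : ℕ} {p : ℝ}

theorem GP_cyc_low (h0 : 0 ≤ p) (h1 : p ≤ 1) (k m : ℕ) (hk : 1 ≤ k) {v x : Fin n} (hvx : v ≠ x)
    (V₁ V₂ V₃ : Finset (Fin n)) (c1 : V₁.card = m) (c2 : V₂.card = m) (c3 : V₃.card = m)
    (d12 : ∀ a ∈ V₁, a ∉ V₂) (d13 : ∀ a ∈ V₁, a ∉ V₃) (d23 : ∀ a ∈ V₂, a ∉ V₃)
    (v1 : v ∉ V₁) (v2 : v ∉ V₂) (v3 : v ∉ V₃) (x1 : x ∉ V₁) (x2 : x ∉ V₂) (x3 : x ∉ V₃) :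
    GP n p (fun G => CodegLe G k ∧ G.Adj v x ∧
      (ncyc G v x : ℝ) ≤ p ^ 4 * (m : ℝ) ^ 3 / (16 * k)) ≤
      2 * Real.exp (-(p * m / 8)) + Real.exp (-(p ^ 2 * (m : ℝ) ^ 2 / 16)) +
        Real.exp (-(p ^ 4 * (m : ℝ) ^ 3 / (64 * k))) := by
  set A : SimpleGraph (Fin n) → Finset (Fin n) := fun G => V₁.filter (fun z => G.Adj v z) with hA
  set X : SimpleGraph (Fin n) → Finset (Fin n) := fun G => V₃.filter (fun z => G.Adj x z) with hX
  set Y : SimpleGraph (Fin n) → Finset (Fin n) := fun G =>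
    V₂.filter (fun b => ∃ a, a ∈ X G ∧ G.Adj a b) with hY
  have mA : ∀ G z, z ∈ A G ↔ z ∈ V₁ ∧ G.Adj v z := fun G z => by rw [hA]; simp
  have mX : ∀ G z, z ∈ X G ↔ z ∈ V₃ ∧ G.Adj x z := fun G z => by rw [hX]; simp
  have mY : ∀ G z, z ∈ Y G ↔ z ∈ V₂ ∧ ∃ a, a ∈ X G ∧ G.Adj a z := fun G z => by
    rw [hY]
    simp only [Finset.mem_filter]
  have hkR : (1 : ℝ) ≤ k := by exact_mod_cast hk
  have hmR : (0 : ℝ) ≤ m := Nat.cast_nonneg m
  have E1 := GP_nbr_low h0 h1 v V₁ v1
  have E2 := GP_nbr_low h0 h1 x V₃ x3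
  rw [c1] at E1
  rw [c3] at E2
  have E3 := GP_cross h0 h1 X (fun _ => V₂)
    (fun G a ha hb => d23 a hb ((mX G a).mp ha).1)
    (fun G G' h => by
      refine ⟨?_, rfl⟩
      ext z
      rw [mX, mX]
      refine and_congr_right (fun hz => ?_)
      refine h x z ?_ ?_
      · rintro ⟨h1, -⟩
        exact x3 ((mX G x).mp h1).1
      · rintro ⟨-, h2⟩
        exact x2 h2)
    (p ^ 2 * (m : ℝ) ^ 2 / 2)
  have E4 := GP_cross h0 h1 A Y
    (fun G a ha hb => d12 a ((mA G a).mp ha).1 ((mY G a).mp hb).1)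
    (fun G G' h => by
      have hXX : X G' = X G := by
        ext z
        rw [mX, mX]
        refine and_congr_right (fun hz => ?_)
        refine h x z ?_ ?_
        · rintro ⟨h1, -⟩
          exact x1 ((mA G x).mp h1).1
        · rintro ⟨-, h2⟩
          exact x2 ((mY G x).mp h2).1
      refine ⟨?_, ?_⟩
      · ext z
        rw [mA, mA]
        refine and_congr_right (fun hz => ?_)
        refine h v z ?_ ?_
        · rintro ⟨h1, -⟩
          exact v1 ((mA G v).mp h1).1
        · rintro ⟨-, h2⟩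
          exact v2 ((mY G v).mp h2).1
      · ext z
        rw [mY, mY, hXX]
        refine and_congr_right (fun hz => ?_)
        refine exists_congr (fun a => and_congr_right (fun ha => ?_))
        have ha3 := ((mX G a).mp ha).1
        refine h a z ?_ ?_
        · rintro ⟨h1, -⟩
          exact d13 a ((mA G a).mp h1).1 ha3
        · rintro ⟨h1, -⟩
          exact d12 z ((mA G z).mp h1).1 hz)
    (p ^ 4 * (m : ℝ) ^ 3 / (8 * k))
  have hincl : GP n p (fun G => CodegLe G k ∧ G.Adj v x ∧
      (ncyc G v x : ℝ) ≤ p ^ 4 * (m : ℝ) ^ 3 / (16 * k)) ≤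
      GP n p (fun G => (((V₁.filter (fun z => G.Adj v z)).card : ℝ) ≤ p * m / 2 ∨
        ((V₃.filter (fun z => G.Adj x z)).card : ℝ) ≤ p * m / 2) ∨
        ((p ^ 2 * (m : ℝ) ^ 2 / 2 ≤ p * ((X G).card * V₂.card) ∧
      (((X G ×ˢ V₂).filter (fun z => G.Adj z.1 z.2)).card : ℝ) ≤
        p * ((X G).card * V₂.card) / 2) ∨
        (p ^ 4 * (m : ℝ) ^ 3 / (8 * k) ≤ p * ((A G).card * (Y G).card) ∧
      (((A G ×ˢ Y G).filter (fun z => G.Adj z.1 z.2)).card : ℝ) ≤
        p * ((A G).card * (Y G).card) / 2))) := by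
    refine GP_mono h0 h1 (fun G hG => ?_)
    obtain ⟨hcod, hadj, hnc⟩ := hG
    by_contra hcon
    rw [not_or, not_or, not_or, not_and, not_and, not_le, not_le, not_le, not_le] at hcon
    obtain ⟨⟨f1, f2⟩, f3, f4⟩ := hcon
    have f1' : p * m / 2 < ((A G).card : ℝ) := f1
    have f2' : p * m / 2 < ((X G).card : ℝ) := f2
    have g3 : p ^ 2 * (m : ℝ) ^ 2 / 2 ≤ p * ((X G).card * V₂.card) := by
      rw [c2]
      have := mul_le_mul_of_nonneg_left f2'.le (mul_nonneg h0 hmR)
      calc p ^ 2 * (m : ℝ) ^ 2 / 2 = p * m * (p * m / 2) := by ring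
        _ ≤ p * m * (X G).card := this
        _ = p * ((X G).card * m) := by ring
    have f3' := f3 g3
    have g4 : (((X G ×ˢ V₂).filter (fun z => G.Adj z.1 z.2)).card : ℝ) ≤ k * (Y G).card := by
      have h := Finset.card_le_mul_card_image (f := Prod.snd)
        ((X G ×ˢ V₂).filter (fun z => G.Adj z.1 z.2)) k (by
          intro b hb
          rw [Finset.mem_image] at hb
          obtain ⟨z, hz, hzb⟩ := hb
          rw [Finset.mem_filter, Finset.mem_product] at hz
          have hxb : x ≠ b := by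
            intro h
            rw [hzb, ← h] at hz
            exact x2 hz.1.2
          refine le_trans ?_ (hcod x b hxb)
          refine Finset.card_le_card_of_injOn Prod.fst ?_ ?_
          · intro w hw
            rw [Finset.mem_coe, Finset.mem_filter, Finset.mem_filter, Finset.mem_product] at hw
            rw [Finset.mem_coe, mem_cod]
            refine ⟨((mX G _).mp hw.1.1.1).2, ?_⟩
            rw [← hw.2]
            exact hw.1.2
          · intro w hw w' hw' hww
            rw [Finset.mem_coe, Finset.mem_filter] at hw hw'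
            exact Prod.ext hww (hw.2.trans hw'.2.symm))
      have h' : (((X G ×ˢ V₂).filter (fun z => G.Adj z.1 z.2)).image Prod.snd).card ≤
          (Y G).card := by
        refine Finset.card_le_card ?_
        intro b hb
        rw [Finset.mem_image] at hb
        obtain ⟨z, hz, hzb⟩ := hb
        rw [Finset.mem_filter, Finset.mem_product] at hz
        rw [mY, ← hzb]
        exact ⟨hz.1.2, z.1, hz.1.1, hz.2⟩
      have h'' := h.trans (Nat.mul_le_mul_left k h')
      exact_mod_cast h''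
    have g5 : p ^ 2 * (m : ℝ) ^ 2 / 4 < k * (Y G).card := by linarith
    have g6 : p ^ 2 * (m : ℝ) ^ 2 / (4 * k) ≤ (Y G).card := by
      rw [div_le_iff₀ (by linarith)]
      linarith
    have g7 : p ^ 4 * (m : ℝ) ^ 3 / (8 * k) ≤ p * ((A G).card * (Y G).card) := by
      have e1 : (p * m / 2) * (p ^ 2 * (m : ℝ) ^ 2 / (4 * k)) ≤ (A G).card * (Y G).card :=
        mul_le_mul f1'.le g6 (by positivity) (Nat.cast_nonneg _)
      have e2 := mul_le_mul_of_nonneg_left e1 h0
      calc p ^ 4 * (m : ℝ) ^ 3 / (8 * k) =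
          p * ((p * m / 2) * (p ^ 2 * (m : ℝ) ^ 2 / (4 * k))) := by
            field_simp
            ring
        _ ≤ _ := e2
    have f4' := f4 g7
    have g8 : ((A G ×ˢ Y G).filter (fun z => G.Adj z.1 z.2)).card ≤ ncyc G v x := by
      have hw : ∀ b, ∃ a, b ∈ Y G → a ∈ X G ∧ G.Adj a b := by
        intro b
        by_cases hb : b ∈ Y G
        · obtain ⟨-, a, ha⟩ := (mY G b).mp hb
          exact ⟨a, fun _ => ha⟩
        · exact ⟨b, fun h => absurd h hb⟩
      choose w hw using hw
      refine card_le_ncyc _ (fun z => ![v, x, w z.2, z.2, z.1]) ?_ ?_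
      · intro z _ z' _ h
        have h3 := congrFun h 3
        have h4 := congrFun h 4
        exact Prod.ext h4 h3
      · intro z hz
        rw [Finset.mem_filter, Finset.mem_product] at hz
        obtain ⟨⟨hzA, hzY⟩, hzadj⟩ := hz
        obtain ⟨hz1, hvz⟩ := (mA G _).mp hzA
        obtain ⟨hz2, -⟩ := (mY G _).mp hzY
        obtain ⟨hwX, hwz⟩ := hw z.2 hzY
        obtain ⟨hw3, hxw⟩ := (mX G _).mp hwX
        refine ⟨⟨?_, ?_⟩, rfl, rfl⟩
        · have n1 : v ≠ w z.2 := fun h => v3 (by rw [h]; exact hw3)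
          have n2 : v ≠ z.2 := fun h => v2 (by rw [h]; exact hz2)
          have n3 : v ≠ z.1 := fun h => v1 (by rw [h]; exact hz1)
          have n4 : x ≠ w z.2 := fun h => x3 (by rw [h]; exact hw3)
          have n5 : x ≠ z.2 := fun h => x2 (by rw [h]; exact hz2)
          have n6 : x ≠ z.1 := fun h => x1 (by rw [h]; exact hz1)
          have n7 : w z.2 ≠ z.2 := fun h => d23 z.2 hz2 (by rw [← h]; exact hw3)
          have n8 : w z.2 ≠ z.1 := fun h => d13 z.1 hz1 (by rw [← h]; exact hw3)
          have n9 : z.2 ≠ z.1 := fun h => d12 z.1 hz1 (by rw [← h]; exact hz2)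
          intro i j hij
          fin_cases i <;> fin_cases j <;> first
            | rfl
            | exact absurd hij hvx
            | exact absurd hij hvx.symm
            | exact absurd hij n1
            | exact absurd hij n1.symm
            | exact absurd hij n2
            | exact absurd hij n2.symm
            | exact absurd hij n3
            | exact absurd hij n3.symm
            | exact absurd hij n4
            | exact absurd hij n4.symm
            | exact absurd hij n5
            | exact absurd hij n5.symm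
            | exact absurd hij n6
            | exact absurd hij n6.symm
            | exact absurd hij n7
            | exact absurd hij n7.symm
            | exact absurd hij n8
            | exact absurd hij n8.symm
            | exact absurd hij n9
            | exact absurd hij n9.symm
        · intro i
          fin_cases i
          · exact hadj
          · exact hxw
          · exact hwz
          · exact hzadj.symm
          · exact hvz.symm
    have g9 : (((A G ×ˢ Y G).filter (fun z => G.Adj z.1 z.2)).card : ℝ) ≤ (ncyc G v x : ℝ) :=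
      Nat.cast_le.mpr g8
    have g10 : p ^ 4 * (m : ℝ) ^ 3 / (16 * k) ≤ p * ((A G).card * (Y G).card) / 2 := by
      have : p ^ 4 * (m : ℝ) ^ 3 / (16 * k) = p ^ 4 * (m : ℝ) ^ 3 / (8 * k) / 2 := by
        field_simp
        ring
      rw [this]
      linarith
    linarith
  refine hincl.trans ((GP_or_le h0 h1 _ _).trans ?_)
  have h5 := GP_or_le h0 h1 (n := n)
    (fun G => ((V₁.filter (fun z => G.Adj v z)).card : ℝ) ≤ p * m / 2)
    (fun G => ((V₃.filter (fun z => G.Adj x z)).card : ℝ) ≤ p * m / 2)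
  have h6 := GP_or_le h0 h1 (n := n)
    (fun G => p ^ 2 * (m : ℝ) ^ 2 / 2 ≤ p * ((X G).card * V₂.card) ∧
      (((X G ×ˢ V₂).filter (fun z => G.Adj z.1 z.2)).card : ℝ) ≤
        p * ((X G).card * V₂.card) / 2)
    (fun G => p ^ 4 * (m : ℝ) ^ 3 / (8 * k) ≤ p * ((A G).card * (Y G).card) ∧
      (((A G ×ˢ Y G).filter (fun z => G.Adj z.1 z.2)).card : ℝ) ≤
        p * ((A G).card * (Y G).card) / 2)
  have e3 : p ^ 2 * (m : ℝ) ^ 2 / 2 / 8 = p ^ 2 * (m : ℝ) ^ 2 / 16 := by ring
  have e4 : p ^ 4 * (m : ℝ) ^ 3 / (8 * k) / 8 = p ^ 4 * (m : ℝ) ^ 3 / (64 * k) := by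
    field_simp
    ring
  rw [e3] at E3
  rw [e4] at E4
  linarith

end Pool.Agent.H49.Shot
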