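import Mathlib
import Pool.Agent.H49.Shot.Base

/-!
# Upper tails by packings of edge-disjoint copies
-/

set_option autoImplicit false

open Finset Classical

namespace Pool.Agent.H49.Shot

open Pool.Agent.H90.Shot

/-- upper tail of binomial type -/
theorem choose_mul_pow_le {N k : ℕ} {q : ℝ} (hq : 0 ≤ q) (h : 6 * ((N : ℝ) * q) ≤ k) :
    (N.choose k : ℝ) * q ^ k ≤ (1 / 2) ^ k := by
  have h1 : (N.choose k : ℝ) ≤ (N : ℝ) ^ k / (k.factorial : ℝ) := Nat.choose_le_pow_div k N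
  have h2 : (N.choose k : ℝ) * q ^ k ≤ ((N : ℝ) * q) ^ k / (k.factorial : ℝ) := by
    calc (N.choose k : ℝ) * q ^ k ≤ (N : ℝ) ^ k / (k.factorial : ℝ) * q ^ k :=
          mul_le_mul_of_nonneg_right h1 (pow_nonneg hq k)
      _ = ((N : ℝ) * q) ^ k / (k.factorial : ℝ) := by rw [mul_pow]; ring
  have h3 : ((N : ℝ) * q) ^ k ≤ ((k : ℝ) / 6) ^ k :=
    pow_le_pow_left₀ (mul_nonneg (Nat.cast_nonneg _) hq) (by linarith) k
  have h4 : (k : ℝ) ^ k / (k.factorial : ℝ) ≤ Real.exp k :=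
    Real.pow_div_factorial_le_exp (k : ℝ) (Nat.cast_nonneg _) k
  have h5 : Real.exp k = Real.exp 1 ^ k := by
    rw [← Real.exp_nat_mul, mul_one]
  have h6 : Real.exp 1 ≤ 3 := by
    have := Real.exp_one_lt_d9
    linarith
  calc (N.choose k : ℝ) * q ^ k ≤ ((N : ℝ) * q) ^ k / (k.factorial : ℝ) := h2
    _ ≤ ((k : ℝ) / 6) ^ k / (k.factorial : ℝ) :=
        div_le_div_of_nonneg_right h3 (Nat.cast_nonneg _)
    _ = (1 / 6) ^ k * ((k : ℝ) ^ k / (k.factorial : ℝ)) := by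
        rw [div_pow, div_pow, one_pow]; ring
    _ ≤ (1 / 6) ^ k * Real.exp 1 ^ k := by
        rw [← h5]
        exact mul_le_mul_of_nonneg_left h4 (by positivity)
    _ ≤ (1 / 6) ^ k * 3 ^ k :=
        mul_le_mul_of_nonneg_left (pow_le_pow_left₀ (Real.exp_pos 1).le h6 k) (by positivity)
    _ = (1 / 2) ^ k := by rw [← mul_pow]; norm_num

/-- independent sets in a conflict graph of bounded degree -/
theorem exists_indep {ι : Type*} (X : Finset ι) (r : ι → ι → Prop) (c : ℕ)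
    (hs : ∀ x y, r x y → r y x)
    (hc : ∀ x ∈ X, (X.filter fun y => r x y).card ≤ c) (hrefl : ∀ x ∈ X, r x x) (M : ℕ)
    (h : c * M < X.card) :
    ∃ F, F ⊆ X ∧ F.card = M + 1 ∧ ∀ x ∈ F, ∀ y ∈ F, x ≠ y → ¬ r x y := by
  induction M with
  | zero =>
    have : 0 < X.card := by omega
    obtain ⟨x, hx⟩ := Finset.card_pos.mp this
    refine ⟨{x}, by simpa using hx, by simp, ?_⟩
    intro a ha b hb hab
    rw [Finset.mem_singleton] at ha hb
    exact absurd (ha.trans hb.symm) hab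
  | succ M ih =>
    have h' : c * M < X.card := lt_of_le_of_lt (Nat.mul_le_mul_left c (Nat.le_succ M)) h
    obtain ⟨F, hFX, hFc, hF⟩ := ih h'
    have h1 : (F.biUnion fun x => X.filter fun y => r x y).card ≤ c * (M + 1) := by
      refine Finset.card_biUnion_le.trans ?_
      calc ∑ x ∈ F, (X.filter fun y => r x y).card ≤ ∑ _x ∈ F, c :=
            Finset.sum_le_sum (fun x hx => hc x (hFX hx))
        _ = c * (M + 1) := by rw [Finset.sum_const, hFc, smul_eq_mul]; ring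
    have h2 : ∃ y ∈ X, y ∉ F.biUnion fun x => X.filter fun y => r x y := by
      by_contra hcon
      push Not at hcon
      have : X.card ≤ (F.biUnion fun x => X.filter fun y => r x y).card :=
        Finset.card_le_card hcon
      omega
    obtain ⟨y, hyX, hy⟩ := h2
    have hy' : ∀ x ∈ F, ¬ r x y := by
      intro x hx hr
      exact hy (Finset.mem_biUnion.mpr ⟨x, hx, Finset.mem_filter.mpr ⟨hyX, hr⟩⟩)
    have hyF : y ∉ F := fun hyF => hy' y hyF (hrefl y hyX)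
    refine ⟨insert y F, Finset.insert_subset hyX hFX, ?_, ?_⟩
    · rw [Finset.card_insert_of_notMem hyF, hFc]
    · intro a ha b hb hab
      rcases Finset.mem_insert.mp ha with ha1 | ha1
      · rcases Finset.mem_insert.mp hb with hb1 | hb1
        · exact absurd (ha1.trans hb1.symm) hab
        · rw [ha1]
          exact fun hr => hy' b hb1 (hs _ _ hr)
      · rcases Finset.mem_insert.mp hb with hb1 | hb1
        · rw [hb1]
          exact hy' a ha1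
        · exact hF a ha1 b hb1 hab

/-- union bound for packings -/
theorem GP_packing {n : ℕ} {p : ℝ} (h0 : 0 ≤ p) (h1 : p ≤ 1) {ι : Type*} (I : Finset ι)
    (Ed : ι → Finset (Sym2 (Fin n))) (k e : ℕ) :
    GP n p (fun G => ∃ F, F ⊆ I ∧ F.card = k ∧ (∀ i ∈ F, (Ed i).card = e) ∧
      (∀ i ∈ F, ∀ j ∈ F, i ≠ j → Disjoint (Ed i) (Ed j)) ∧
      ∀ i ∈ F, ∀ s ∈ Ed i, s ∈ G.edgeSet) ≤ (I.card.choose k : ℝ) * (p ^ e) ^ k := by
  have h2 : GP n p (fun G => ∃ F, F ⊆ I ∧ F.card = k ∧ (∀ i ∈ F, (Ed i).card = e) ∧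
      (∀ i ∈ F, ∀ j ∈ F, i ≠ j → Disjoint (Ed i) (Ed j)) ∧
      ∀ i ∈ F, ∀ s ∈ Ed i, s ∈ G.edgeSet) ≤
      GP n p (fun G => ∃ F ∈ I.powersetCard k, (∀ i ∈ F, (Ed i).card = e) ∧
        (∀ i ∈ F, ∀ j ∈ F, i ≠ j → Disjoint (Ed i) (Ed j)) ∧
        ∀ i ∈ F, ∀ s ∈ Ed i, s ∈ G.edgeSet) := by
    refine GP_mono h0 h1 (fun G hG => ?_)
    obtain ⟨F, h1, h2, h3⟩ := hG
    exact ⟨F, Finset.mem_powersetCard.mpr ⟨h1, h2⟩, h3⟩
  refine h2.trans ((GP_exists_le h0 h1 (I.powersetCard k) _).trans ?_)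
  have h3 : ∀ F ∈ I.powersetCard k, GP n p (fun G => (∀ i ∈ F, (Ed i).card = e) ∧
        (∀ i ∈ F, ∀ j ∈ F, i ≠ j → Disjoint (Ed i) (Ed j)) ∧
        ∀ i ∈ F, ∀ s ∈ Ed i, s ∈ G.edgeSet) ≤ (p ^ e) ^ k := by
    intro F hF
    by_cases hgood : (∀ i ∈ F, (Ed i).card = e) ∧
        (∀ i ∈ F, ∀ j ∈ F, i ≠ j → Disjoint (Ed i) (Ed j))
    · have hcard : (F.biUnion Ed).card = e * k := by
        rw [Finset.card_biUnion hgood.2, Finset.sum_congr rfl hgood.1, Finset.sum_const,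
          (Finset.mem_powersetCard.mp hF).2, smul_eq_mul, mul_comm]
      have := GP_subset_le h0 h1 (F.biUnion Ed)
      rw [hcard, pow_mul] at this
      refine le_trans (GP_mono h0 h1 (fun G hG => ?_)) this
      intro s hs
      obtain ⟨i, hi, hsi⟩ := Finset.mem_biUnion.mp (Finset.mem_coe.mp hs)
      exact hG.2.2 i hi s hsi
    · have : GP n p (fun G => (∀ i ∈ F, (Ed i).card = e) ∧
        (∀ i ∈ F, ∀ j ∈ F, i ≠ j → Disjoint (Ed i) (Ed j)) ∧
        ∀ i ∈ F, ∀ s ∈ Ed i, s ∈ G.edgeSet) = 0 := by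
        unfold GP
        refine Finset.sum_eq_zero (fun G _ => if_neg ?_)
        intro hG
        exact hgood ⟨hG.1, hG.2.1⟩
      rw [this]
      positivity
  refine (Finset.sum_le_sum h3).trans ?_
  rw [Finset.sum_const, Finset.card_powersetCard, nsmul_eq_mul]

/-- Disjointness of edge sets from disjointness of inner vertices. -/
theorem disjoint_edges {V : Type*} {A B W : Finset V} {E F : Finset (Sym2 V)}
    (hE : ∀ e ∈ E, ∃ w ∈ A, w ∈ e) (hF : ∀ e ∈ F, ∀ w ∈ e, w ∈ B ∨ w ∈ W)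
    (hAW : ∀ w ∈ A, w ∉ W) (hAB : ∀ w ∈ A, w ∉ B) : Disjoint E F := by
  rw [Finset.disjoint_left]
  intro e he hf
  obtain ⟨w, hwA, hwe⟩ := hE e he
  rcases hF e hf w hwe with h | h
  · exact hAB w hwA h
  · exact hAW w hwA h

/-- Many items with bounded conflicts contain a packing. -/
theorem GP_many {n : ℕ} {p : ℝ} (h0 : 0 ≤ p) (h1 : p ≤ 1) {ι : Type*} (I : Finset ι)
    (inn : ι → Finset (Fin n)) (W : Finset (Fin n)) (Ed : ι → Finset (Sym2 (Fin n)))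
    (e c M : ℕ) (hne : ∀ i ∈ I, (inn i).Nonempty) (hcard : ∀ i ∈ I, (Ed i).card = e)
    (hin : ∀ i ∈ I, ∀ s ∈ Ed i, ∃ w ∈ inn i, w ∈ s)
    (hout : ∀ i ∈ I, ∀ s ∈ Ed i, ∀ w ∈ s, w ∈ inn i ∨ w ∈ W)
    (hW : ∀ i ∈ I, ∀ w ∈ inn i, w ∉ W) :
    GP n p (fun G => ∃ X : Finset ι, X ⊆ I ∧ (∀ i ∈ X, ∀ s ∈ Ed i, s ∈ G.edgeSet) ∧
      (∀ i ∈ X, (X.filter fun j => Confl (inn i) (inn j)).card ≤ c) ∧
      c * M < X.card)
      ≤ (I.card.choose (M + 1) : ℝ) * (p ^ e) ^ (M + 1) := by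
  refine le_trans (GP_mono h0 h1 (fun G hG => ?_)) (GP_packing h0 h1 I Ed (M + 1) e)
  obtain ⟨X, hXI, hXG, hc, hM⟩ := hG
  obtain ⟨F, hFX, hFc, hF⟩ := exists_indep X (fun i j => Confl (inn i) (inn j)) c
    (fun i j h => by
      obtain ⟨w, hw, hw'⟩ := h
      exact ⟨w, hw', hw⟩)
    hc
    (fun i hi => by
      obtain ⟨w, hw⟩ := hne i (hXI hi)
      exact ⟨w, hw, hw⟩)
    M hM
  refine ⟨F, hFX.trans hXI, hFc, fun i hi => hcard i (hXI (hFX hi)), ?_, ?_⟩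
  · intro i hi j hj hij
    exact disjoint_edges (hin i (hXI (hFX hi))) (hout j (hXI (hFX hj)))
      (hW i (hXI (hFX hi))) (fun w hw hw' => hF i hi j hj hij ⟨w, hw, hw'⟩)
  · intro i hi s hs
    exact hXG i (hFX hi) s hs

end Pool.Agent.H49.Shot
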