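import Mathlib
import Pool.Agent.H49.Shot.Pack

/-!
# Upper tails for degrees, codegrees, 3-paths and 5-cycles
-/

set_option autoImplicit false

open Finset Classical

namespace Pool.Agent.H49.Shot

open Pool.Agent.H90.Shot

variable {n : ℕ} {p : ℝ}

theorem GP_deg (h0 : 0 ≤ p) (h1 : p ≤ 1) (k : ℕ) (v : Fin n) :
    GP n p (fun G => k < (nbr G v).card) ≤
      (n.choose (k + 1) : ℝ) * p ^ (k + 1) := by
  have h := GP_packing (n := n) h0 h1 (univ : Finset (Fin n)) (fun z => {s(v, z)}) (k + 1) 1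
  rw [pow_one, Finset.card_univ, Fintype.card_fin] at h
  refine le_trans (GP_mono h0 h1 (fun G hG => ?_)) h
  obtain ⟨F, hF, hFc⟩ := Finset.exists_subset_card_eq (Nat.succ_le_of_lt hG)
  refine ⟨F, Finset.subset_univ _, hFc, fun i _ => Finset.card_singleton _, ?_, ?_⟩
  · intro i hi j hj hij
    rw [Finset.disjoint_singleton]
    intro h
    exact hij (Sym2.congr_right.mp h)
  · intro i hi s hs
    rw [Finset.mem_singleton] at hs
    rw [hs, SimpleGraph.mem_edgeSet]
    exact mem_nbr.mp (hF hi)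

theorem GP_codeg (h0 : 0 ≤ p) (h1 : p ≤ 1) (k : ℕ) {u v : Fin n} (huv : u ≠ v) :
    GP n p (fun G => k < (cod G u v).card) ≤
      (n.choose (k + 1) : ℝ) * (p ^ 2) ^ (k + 1) := by
  have h := GP_packing (n := n) h0 h1 (univ : Finset (Fin n)) (fun z => {s(u, z), s(z, v)})
    (k + 1) 2
  rw [Finset.card_univ, Fintype.card_fin] at h
  refine le_trans (GP_mono h0 h1 (fun G hG => ?_)) h
  obtain ⟨F, hF, hFc⟩ := Finset.exists_subset_card_eq (Nat.succ_le_of_lt hG)
  have hA : ∀ z ∈ F, G.Adj u z ∧ G.Adj z v := fun z hz => mem_cod.mp (hF hz)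
  refine ⟨F, Finset.subset_univ _, hFc, ?_, ?_, ?_⟩
  · intro i hi
    refine Finset.card_pair ?_
    intro he
    rw [Sym2.eq_iff] at he
    rcases he with ⟨h2, _⟩ | ⟨h2, _⟩
    · exact (hA i hi).1.ne h2
    · exact huv h2
  · intro i hi j hj hij
    refine disjoint_edges (A := {i}) (B := {j}) (W := {u, v}) ?_ ?_ ?_ ?_
    · intro e he
      refine ⟨i, Finset.mem_singleton_self i, ?_⟩
      rcases Finset.mem_insert.mp he with h | h
      · rw [h]; exact Sym2.mem_mk_right u i
      · rw [Finset.mem_singleton] at h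
        rw [h]; exact Sym2.mem_mk_left i v
    · intro e he w hw
      rcases Finset.mem_insert.mp he with h | h
      · rw [h, Sym2.mem_iff] at hw
        rcases hw with h | h <;> simp [h]
      · rw [Finset.mem_singleton] at h
        rw [h, Sym2.mem_iff] at hw
        rcases hw with h | h <;> simp [h]
    · intro w hw hw'
      rw [Finset.mem_singleton] at hw
      rw [hw, Finset.mem_insert, Finset.mem_singleton] at hw'
      rcases hw' with h | h
      · exact (hA i hi).1.ne h.symm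
      · exact (hA i hi).2.ne h
    · intro w hw hw'
      rw [Finset.mem_singleton] at hw hw'
      exact hij (hw.symm.trans hw')
  · intro i hi s hs
    rcases Finset.mem_insert.mp hs with h | h
    · rw [h, SimpleGraph.mem_edgeSet]; exact (hA i hi).1
    · rw [Finset.mem_singleton] at h
      rw [h, SimpleGraph.mem_edgeSet]; exact (hA i hi).2

theorem GP_path3 (h0 : 0 ≤ p) (h1 : p ≤ 1) (k M : ℕ) {u v : Fin n} (huv : u ≠ v) :
    GP n p (fun G => CodegLe G k ∧ 4 * k * M < (pth G u v).card) ≤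
      ((n ^ 2).choose (M + 1) : ℝ) * (p ^ 3) ^ (M + 1) := by
  set I : Finset (Fin n × Fin n) := univ.filter fun z =>
    z.1 ≠ u ∧ z.1 ≠ v ∧ z.2 ≠ u ∧ z.2 ≠ v ∧ z.1 ≠ z.2 with hI
  have hIc : I.card ≤ n ^ 2 := by
    refine (Finset.card_le_univ _).trans ?_
    rw [Fintype.card_prod, Fintype.card_fin, sq]
  have h := GP_many (n := n) h0 h1 I in2 {u, v}
    (fun z => {s(u, z.1), s(z.1, z.2), s(z.2, v)}) 3 (4 * k) M
    (fun z _ => ⟨z.1, mem_in2.mpr (Or.inl rfl)⟩)
    (fun z hz => by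
      rw [hI, Finset.mem_filter] at hz
      obtain ⟨-, hz1, hz2, hz3, hz4, hz5⟩ := hz
      rw [Finset.card_eq_three]
      refine ⟨_, _, _, ?_, ?_, ?_, rfl⟩
      · intro he
        rw [Sym2.eq_iff] at he
        rcases he with ⟨h2, _⟩ | ⟨h2, _⟩
        · exact hz1 h2.symm
        · exact hz3 h2.symm
      · intro he
        rw [Sym2.eq_iff] at he
        rcases he with ⟨h2, _⟩ | ⟨h2, _⟩
        · exact hz3 h2.symm
        · exact huv h2
      · intro he
        rw [Sym2.eq_iff] at he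
        rcases he with ⟨h2, _⟩ | ⟨h2, _⟩
        · exact hz5 h2
        · exact hz2 h2)
    (fun z _ s hs => by
      simp only [Finset.mem_insert, Finset.mem_singleton] at hs
      rcases hs with h | h | h
      · exact ⟨z.1, mem_in2.mpr (Or.inl rfl), by rw [h]; exact Sym2.mem_mk_right _ _⟩
      · exact ⟨z.1, mem_in2.mpr (Or.inl rfl), by rw [h]; exact Sym2.mem_mk_left _ _⟩
      · exact ⟨z.2, mem_in2.mpr (Or.inr rfl), by rw [h]; exact Sym2.mem_mk_left _ _⟩)
    (fun z _ s hs w hw => by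
      simp only [Finset.mem_insert, Finset.mem_singleton] at hs
      rcases hs with h | h | h <;> rw [h, Sym2.mem_iff] at hw <;>
        rcases hw with h | h <;> simp [h, mem_in2])
    (fun z hz w hw hw' => by
      rw [hI, Finset.mem_filter] at hz
      obtain ⟨-, hz1, hz2, hz3, hz4, hz5⟩ := hz
      rw [mem_in2] at hw
      simp only [Finset.mem_insert, Finset.mem_singleton] at hw'
      rcases hw with h | h <;> rcases hw' with h' | h'
      · exact hz1 (h.symm.trans h')
      · exact hz2 (h.symm.trans h')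
      · exact hz3 (h.symm.trans h')
      · exact hz4 (h.symm.trans h'))
  have h2 : (I.card.choose (M + 1) : ℝ) * (p ^ 3) ^ (M + 1) ≤
      ((n ^ 2).choose (M + 1) : ℝ) * (p ^ 3) ^ (M + 1) := by
    refine mul_le_mul_of_nonneg_right ?_ (by positivity)
    exact_mod_cast Nat.choose_le_choose (M + 1) hIc
  refine le_trans (GP_mono h0 h1 (fun G hG => ?_)) (h.trans h2)
  obtain ⟨hk, hM⟩ := hG
  refine ⟨pth G u v, ?_, ?_, fun i _ => pth_conf hk i, hM⟩
  · intro z hz
    rw [mem_pth] at hz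
    obtain ⟨a1, a2, a3, a4, a5⟩ := hz
    rw [hI, Finset.mem_filter]
    exact ⟨Finset.mem_univ _, a1.ne.symm, a4, a5, a3.ne, a2.ne⟩
  · intro z hz s hs
    rw [mem_pth] at hz
    obtain ⟨a1, a2, a3, a4, a5⟩ := hz
    simp only [Finset.mem_insert, Finset.mem_singleton] at hs
    rcases hs with h | h | h <;> rw [h, SimpleGraph.mem_edgeSet]
    · exact a1
    · exact a2
    · exact a3

theorem GP_cyc (h0 : 0 ≤ p) (h1 : p ≤ 1) (k k₂ M : ℕ) {v x : Fin n} (hvx : v ≠ x) :
    GP n p (fun G => CodegLe G k ∧ Path3Le G k₂ ∧ 3 * (2 * k₂ + k * k) * M < ncyc G v x) ≤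
      ((n ^ 3).choose (M + 1) : ℝ) * (p ^ 4) ^ (M + 1) := by
  set I : Finset (Fin n × Fin n × Fin n) := univ.filter fun z =>
    (z.1 ≠ v ∧ z.2.1 ≠ v ∧ z.2.2 ≠ v) ∧ (z.1 ≠ x ∧ z.2.1 ≠ x ∧ z.2.2 ≠ x) ∧
      z.1 ≠ z.2.1 ∧ z.1 ≠ z.2.2 ∧ z.2.1 ≠ z.2.2 with hI
  have hIc : I.card ≤ n ^ 3 := by
    refine (Finset.card_le_univ _).trans ?_
    rw [Fintype.card_prod, Fintype.card_prod, Fintype.card_fin]
    exact le_of_eq (by ring)
  have h := GP_many (n := n) h0 h1 I in3 {v, x}
    (fun z => {s(x, z.1), s(z.1, z.2.1), s(z.2.1, z.2.2), s(z.2.2, v)}) 4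
    (3 * (2 * k₂ + k * k)) M
    (fun z _ => ⟨z.1, mem_in3.mpr (Or.inl rfl)⟩)
    (fun z hz => by
      rw [hI, Finset.mem_filter] at hz
      obtain ⟨-, ⟨a1, a2, a3⟩, ⟨b1, b2, b3⟩, c1, c2, c3⟩ := hz
      rw [Finset.card_insert_of_notMem, Finset.card_insert_of_notMem,
        Finset.card_insert_of_notMem, Finset.card_singleton]
      · simp only [Finset.mem_singleton, Sym2.eq_iff]
        rintro (⟨h, -⟩ | ⟨h, -⟩)
        · exact c3 h
        · exact a2 h
      · simp only [Finset.mem_insert, Finset.mem_singleton, Sym2.eq_iff]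
        rintro ((⟨h, -⟩ | ⟨h, -⟩) | (⟨h, -⟩ | ⟨h, -⟩))
        · exact c1 h
        · exact c2 h
        · exact c2 h
        · exact a1 h
      · simp only [Finset.mem_insert, Finset.mem_singleton, Sym2.eq_iff]
        rintro ((⟨h, -⟩ | ⟨h, -⟩) | (⟨h, -⟩ | ⟨h, -⟩) | (⟨h, -⟩ | ⟨h, -⟩))
        · exact b1 h.symm
        · exact b2 h.symm
        · exact b2 h.symm
        · exact b3 h.symm
        · exact b3 h.symm
        · exact hvx h.symm)
    (fun z _ s hs => by
      simp only [Finset.mem_insert, Finset.mem_singleton] at hs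
      rcases hs with h | h | h | h
      · exact ⟨z.1, mem_in3.mpr (Or.inl rfl), by rw [h]; exact Sym2.mem_mk_right _ _⟩
      · exact ⟨z.1, mem_in3.mpr (Or.inl rfl), by rw [h]; exact Sym2.mem_mk_left _ _⟩
      · exact ⟨z.2.1, mem_in3.mpr (Or.inr (Or.inl rfl)), by rw [h]; exact Sym2.mem_mk_left _ _⟩
      · exact ⟨z.2.2, mem_in3.mpr (Or.inr (Or.inr rfl)), by rw [h]; exact Sym2.mem_mk_left _ _⟩)
    (fun z _ s hs w hw => by
      simp only [Finset.mem_insert, Finset.mem_singleton] at hs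
      rcases hs with h | h | h | h <;> rw [h, Sym2.mem_iff] at hw <;>
        rcases hw with h | h <;> simp [h, mem_in3])
    (fun z hz w hw hw' => by
      rw [hI, Finset.mem_filter] at hz
      obtain ⟨-, ⟨a1, a2, a3⟩, ⟨b1, b2, b3⟩, c1, c2, c3⟩ := hz
      rw [mem_in3] at hw
      simp only [Finset.mem_insert, Finset.mem_singleton] at hw'
      rcases hw with h | h | h <;> rcases hw' with h' | h'
      · exact a1 (h.symm.trans h')
      · exact b1 (h.symm.trans h')
      · exact a2 (h.symm.trans h')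
      · exact b2 (h.symm.trans h')
      · exact a3 (h.symm.trans h')
      · exact b3 (h.symm.trans h'))
  have h2 : (I.card.choose (M + 1) : ℝ) * (p ^ 4) ^ (M + 1) ≤
      ((n ^ 3).choose (M + 1) : ℝ) * (p ^ 4) ^ (M + 1) := by
    refine mul_le_mul_of_nonneg_right ?_ (by positivity)
    exact_mod_cast Nat.choose_le_choose (M + 1) hIc
  refine le_trans (GP_mono h0 h1 (fun G hG => ?_)) (h.trans h2)
  obtain ⟨hk, hk₂, hM⟩ := hG
  refine ⟨inner G v x, ?_, ?_, ?_, lt_of_lt_of_le hM (ncyc_le_inner G v x)⟩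
  · intro z hz
    rw [mem_inner] at hz
    obtain ⟨⟨a1, a2, a3, a4⟩, b1, b2, b3, b4, b5⟩ := hz
    rw [hI, Finset.mem_filter]
    exact ⟨Finset.mem_univ _, ⟨b1, b2, a4.ne⟩, ⟨a1.ne.symm, b3, b4⟩, a2.ne, b5, a3.ne⟩
  · intro z hz s hs
    rw [mem_inner] at hz
    obtain ⟨⟨a1, a2, a3, a4⟩, b1, b2, b3, b4, b5⟩ := hz
    simp only [Finset.mem_insert, Finset.mem_singleton] at hs
    rcases hs with h | h | h | h <;> rw [h, SimpleGraph.mem_edgeSet]
    · exact a1
    · exact a2
    · exact a3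
    · exact a4
  · intro i _
    exact inner_conf hk hk₂ i

end Pool.Agent.H49.Shot
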