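import Mathlib
import Pool.Agent.H49.Shot.Upper
import Pool.Agent.H49.Shot.Lower

/-!
# Random graphs with `n^(-3/4+ε) ≤ p ≤ n^(-2/3-δ)` are typical
-/

set_option autoImplicit false

open Finset Classical Filter Topology

namespace Pool.Agent.H49.Shot

open Pool.Agent.H90.Shot

section unions

variable {n : ℕ} {p : ℝ}

theorem GP_exists1 (h0 : 0 ≤ p) (h1 : p ≤ 1) (P : Fin n → SimpleGraph (Fin n) → Prop) (B : ℝ)
    (h : ∀ v, GP n p (P v) ≤ B) : GP n p (fun G => ∃ v, P v G) ≤ n * B := by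
  have h2 := GP_exists_le h0 h1 (univ : Finset (Fin n)) P
  refine le_trans (GP_mono h0 h1 (fun G hG => ?_)) (h2.trans ?_)
  · obtain ⟨v, hv⟩ := hG
    exact ⟨v, Finset.mem_univ _, hv⟩
  · refine (Finset.sum_le_sum (fun v _ => h v)).trans ?_
    rw [Finset.sum_const, Finset.card_univ, Fintype.card_fin, nsmul_eq_mul]

theorem GP_exists2 (h0 : 0 ≤ p) (h1 : p ≤ 1) (P : Fin n → Fin n → SimpleGraph (Fin n) → Prop)
    (B : ℝ) (hB : 0 ≤ B) (h : ∀ u v, u ≠ v → GP n p (P u v) ≤ B) :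
    GP n p (fun G => ∃ u v, u ≠ v ∧ P u v G) ≤ (n : ℝ) ^ 2 * B := by
  have h2 : ∀ u, GP n p (fun G => ∃ v, u ≠ v ∧ P u v G) ≤ n * B := by
    intro u
    refine GP_exists1 h0 h1 _ B (fun v => ?_)
    by_cases huv : u = v
    · have : GP n p (fun G => u ≠ v ∧ P u v G) = 0 := by
        unfold GP
        exact Finset.sum_eq_zero (fun G _ => if_neg (fun h => h.1 huv))
      rw [this]
      exact hB
    · exact (GP_mono h0 h1 (fun G hG => hG.2)).trans (h u v huv)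
  have := GP_exists1 h0 h1 (fun u G => ∃ v, u ≠ v ∧ P u v G) (n * B) h2
  calc _ ≤ n * (n * B) := this
    _ = (n : ℝ) ^ 2 * B := by ring

end unions

/-- Three disjoint sets of size `m` avoiding two vertices. -/
theorem exists_parts {n m : ℕ} (h : 3 * m + 2 ≤ n) (v x : Fin n) :
    ∃ V₁ V₂ V₃ : Finset (Fin n), V₁.card = m ∧ V₂.card = m ∧ V₃.card = m ∧
      (∀ a ∈ V₁, a ∉ V₂) ∧ (∀ a ∈ V₁, a ∉ V₃) ∧ (∀ a ∈ V₂, a ∉ V₃) ∧
      v ∉ V₁ ∧ v ∉ V₂ ∧ v ∉ V₃ ∧ x ∉ V₁ ∧ x ∉ V₂ ∧ x ∉ V₃ := by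
  have hc : m ≤ (univ \ {v, x} : Finset (Fin n)).card := by
    have h1 := Finset.le_card_sdiff ({v, x} : Finset (Fin n)) univ
    have h2 : ({v, x} : Finset (Fin n)).card ≤ 2 := Finset.card_le_two
    rw [Finset.card_univ, Fintype.card_fin] at h1
    omega
  obtain ⟨V₁, h1, c1⟩ := Finset.exists_subset_card_eq hc
  have hc2 : m ≤ ((univ \ {v, x}) \ V₁ : Finset (Fin n)).card := by
    have h1 := Finset.le_card_sdiff V₁ (univ \ {v, x} : Finset (Fin n))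
    have h3 := Finset.le_card_sdiff ({v, x} : Finset (Fin n)) univ
    have h2 : ({v, x} : Finset (Fin n)).card ≤ 2 := Finset.card_le_two
    rw [Finset.card_univ, Fintype.card_fin] at h3
    omega
  obtain ⟨V₂, h2, c2⟩ := Finset.exists_subset_card_eq hc2
  have hc3 : m ≤ (((univ \ {v, x}) \ V₁) \ V₂ : Finset (Fin n)).card := by
    have h4 := Finset.le_card_sdiff V₂ ((univ \ {v, x}) \ V₁ : Finset (Fin n))
    have h1 := Finset.le_card_sdiff V₁ (univ \ {v, x} : Finset (Fin n))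
    have h3 := Finset.le_card_sdiff ({v, x} : Finset (Fin n)) univ
    have h2 : ({v, x} : Finset (Fin n)).card ≤ 2 := Finset.card_le_two
    rw [Finset.card_univ, Fintype.card_fin] at h3
    omega
  obtain ⟨V₃, h3, c3⟩ := Finset.exists_subset_card_eq hc3
  have m1 : ∀ a, a ∈ V₁ → a ≠ v ∧ a ≠ x := by
    intro a ha
    have := h1 ha
    simpa using this
  have m2 : ∀ a, a ∈ V₂ → (a ≠ v ∧ a ≠ x) ∧ a ∉ V₁ := by
    intro a ha
    have := h2 ha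
    simpa using this
  have m3 : ∀ a, a ∈ V₃ → ((a ≠ v ∧ a ≠ x) ∧ a ∉ V₁) ∧ a ∉ V₂ := by
    intro a ha
    have := h3 ha
    simpa using this
  exact ⟨V₁, V₂, V₃, c1, c2, c3, fun a ha hb => (m2 a hb).2 ha, fun a ha hb => (m3 a hb).1.2 ha,
    fun a ha hb => (m3 a hb).2 ha, fun h => (m1 v h).1 rfl, fun h => (m2 v h).1.1 rfl,
    fun h => (m3 v h).1.1.1 rfl, fun h => (m1 x h).2 rfl, fun h => (m2 x h).1.2 rfl,
    fun h => (m3 x h).1.1.2 rfl⟩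

/-- error term -/
noncomputable def errC (ε : ℝ) (n : ℕ) : ℝ :=
  (n : ℝ) ^ 2 * Real.exp (-(1 * (n : ℝ) ^ (1 / 4 : ℝ))) + (n : ℝ) ^ (-(1 / 3) : ℝ) +
    (n : ℝ) ^ (-1 : ℝ) + (n : ℝ) ^ 2 * Real.exp (-(1 * (n : ℝ) ^ (4 * ε))) +
    (n : ℝ) ^ 2 * (2 * Real.exp (-((1 / 40) * (n : ℝ) ^ (1 / 4 : ℝ))) +
      Real.exp (-((1 / 400) * (n : ℝ) ^ (1 / 4 : ℝ))) +
      Real.exp (-((1 / 48000) * (n : ℝ) ^ (4 * ε))))

theorem tendsto_sq_mul_exp {a c : ℝ} (ha : 0 < a) (hc : 0 < c) :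
    Tendsto (fun n : ℕ => (n : ℝ) ^ 2 * Real.exp (-(c * (n : ℝ) ^ a))) atTop (𝓝 0) := by
  have h1 := tendsto_rpow_mul_exp_neg_mul_atTop_nhds_zero (2 / a) c hc
  have h2 : Tendsto (fun n : ℕ => (n : ℝ) ^ a) atTop atTop :=
    (tendsto_rpow_atTop ha).comp tendsto_natCast_atTop_atTop
  refine (h1.comp h2).congr (fun n => ?_)
  simp only [Function.comp]
  rw [← Real.rpow_mul (Nat.cast_nonneg n), mul_div_cancel₀ _ ha.ne', neg_mul]
  norm_num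

theorem tendsto_errC {ε : ℝ} (hε : 0 < ε) : Tendsto (errC ε) atTop (𝓝 0) := by
  have a1 := tendsto_sq_mul_exp (a := 1 / 4) (c := 1) (by norm_num) one_pos
  have a2 : Tendsto (fun n : ℕ => (n : ℝ) ^ (-(1 / 3) : ℝ)) atTop (𝓝 0) :=
    (tendsto_rpow_neg_atTop (by norm_num)).comp tendsto_natCast_atTop_atTop
  have a3 : Tendsto (fun n : ℕ => (n : ℝ) ^ (-1 : ℝ)) atTop (𝓝 0) :=
    (tendsto_rpow_neg_atTop (by norm_num)).comp tendsto_natCast_atTop_atTop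
  have a4 := tendsto_sq_mul_exp (a := 4 * ε) (c := 1) (by linarith) one_pos
  have a5 := tendsto_sq_mul_exp (a := 1 / 4) (c := 1 / 40) (by norm_num) (by norm_num)
  have a6 := tendsto_sq_mul_exp (a := 1 / 4) (c := 1 / 400) (by norm_num) (by norm_num)
  have a7 := tendsto_sq_mul_exp (a := 4 * ε) (c := 1 / 48000) (by linarith) (by norm_num)
  have := (((a1.add a2).add a3).add a4).add (((a5.const_mul 2).add a6).add a7)
  simp only [add_zero, mul_zero] at this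
  refine this.congr (fun n => ?_)
  unfold errC
  ring

theorem half_pow_le_exp {x : ℝ} (k : ℕ) (h : 2 * x ≤ k) : (1 / 2 : ℝ) ^ k ≤ Real.exp (-x) := by
  have h1 : (1 / 2 : ℝ) ≤ Real.exp (-(1 / 2)) := by
    have := Real.add_one_le_exp (-(1 / 2) : ℝ)
    linarith
  calc (1 / 2 : ℝ) ^ k ≤ Real.exp (-(1 / 2)) ^ k := pow_le_pow_left₀ (by norm_num) h1 k
    _ = Real.exp (-(k / 2)) := by rw [← Real.exp_nat_mul]; ring_nf
    _ ≤ Real.exp (-x) := Real.exp_le_exp.mpr (by linarith)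

theorem typ_bound {ε δ : ℝ} (hε : 0 < ε) (hδ : 0 < δ) {n : ℕ} (hn : 20 ≤ n) {p : ℝ}
    (hp : (n : ℝ) ^ (-3 / 4 + ε) ≤ p) (hp' : p ≤ (n : ℝ) ^ (-2 / 3 - δ)) :
    GP n p (fun G => ¬ Typ G ⌈6 * n * p⌉₊ 6 (24 * ⌈1 / δ⌉₊)
      (1 / 12000 * n ^ 3 * p ^ 4) ((21 * (48 * ⌈1 / δ⌉₊ + 36)) * n ^ 3 * p ^ 4)) ≤ errC ε n := by
  have hn1 : (1 : ℝ) ≤ n := by exact_mod_cast (le_trans (by norm_num) hn)
  have hn20 : (20 : ℝ) ≤ n := by exact_mod_cast hn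
  have hn0 : (0 : ℝ) < n := by linarith
  have h0 : 0 < p := lt_of_lt_of_le (Real.rpow_pos_of_pos hn0 _) hp
  have h1 : p ≤ 1 := hp'.trans (Real.rpow_le_one_of_one_le_of_nonpos hn1 (by linarith))
  set M₀ := ⌈1 / δ⌉₊ with hM₀
  set T : ℝ := (n : ℝ) ^ 3 * p ^ 4 with hT
  have hTn : (n : ℝ) ^ (4 * ε) ≤ T := by
    have e1 : ((n : ℝ) ^ (-3 / 4 + ε)) ^ 4 ≤ p ^ 4 :=
      pow_le_pow_left₀ (Real.rpow_nonneg hn0.le _) hp 4
    calc (n : ℝ) ^ (4 * ε) = (n : ℝ) ^ 3 * ((n : ℝ) ^ (-3 / 4 + ε)) ^ 4 := by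
          rw [← Real.rpow_natCast, ← Real.rpow_natCast, ← Real.rpow_mul hn0.le,
            ← Real.rpow_add hn0]
          congr 1
          push_cast
          ring
      _ ≤ T := mul_le_mul_of_nonneg_left e1 (by positivity)
  have hT1 : 1 ≤ T := le_trans (Real.one_le_rpow hn1 (by linarith)) hTn
  have hnp : (n : ℝ) ^ (1 / 4 : ℝ) ≤ n * p := by
    calc (n : ℝ) ^ (1 / 4 : ℝ) ≤ (n : ℝ) ^ (1 / 4 + ε) :=
          Real.rpow_le_rpow_of_exponent_le hn1 (by linarith)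
      _ = n * (n : ℝ) ^ (-3 / 4 + ε) := by
          rw [← Real.rpow_one_add' hn0.le (by linarith)]
          congr 1
          ring
      _ ≤ n * p := mul_le_mul_of_nonneg_left hp hn0.le
  have hr1 : 1 ≤ (n : ℝ) ^ (1 / 4 : ℝ) := Real.one_le_rpow hn1 (by norm_num)
  -- degrees
  have F1 : GP n p (fun G => ∃ v, ⌈6 * n * p⌉₊ < (nbr G v).card) ≤
      (n : ℝ) ^ 2 * Real.exp (-(1 * (n : ℝ) ^ (1 / 4 : ℝ))) := by
    have hD := Nat.le_ceil (6 * n * p)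
    have e1 : ∀ v : Fin n, GP n p (fun G => ⌈6 * n * p⌉₊ < (nbr G v).card) ≤
        Real.exp (-(1 * (n : ℝ) ^ (1 / 4 : ℝ))) := by
      intro v
      refine (GP_deg h0.le h1 _ v).trans ((choose_mul_pow_le h0.le ?_).trans
        (half_pow_le_exp _ ?_))
      · push_cast
        linarith
      · push_cast
        nlinarith
    refine (GP_exists1 h0.le h1 _ _ e1).trans ?_
    refine mul_le_mul_of_nonneg_right ?_ (Real.exp_pos _).le
    nlinarith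
  -- codegrees
  have F2 : GP n p (fun G => ∃ u v, u ≠ v ∧ 6 < (cod G u v).card) ≤
      (n : ℝ) ^ (-(1 / 3) : ℝ) := by
    have e0 : (n : ℝ) * p ^ 2 ≤ (n : ℝ) ^ (-(1 / 3) : ℝ) := by
      calc (n : ℝ) * p ^ 2 ≤ n * ((n : ℝ) ^ (-2 / 3 - δ)) ^ 2 :=
            mul_le_mul_of_nonneg_left (pow_le_pow_left₀ h0.le hp' 2) hn0.le
        _ = (n : ℝ) ^ (1 + (-2 / 3 - δ) * 2) := by
            rw [← Real.rpow_natCast ((n : ℝ) ^ (-2 / 3 - δ)), ← Real.rpow_mul hn0.le,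
              Real.rpow_add hn0, Real.rpow_one]
            norm_num
        _ ≤ (n : ℝ) ^ (-(1 / 3) : ℝ) := Real.rpow_le_rpow_of_exponent_le hn1 (by linarith)
    have e1 : ∀ u v : Fin n, u ≠ v → GP n p (fun G => 6 < (cod G u v).card) ≤
        ((n : ℝ) ^ (-(1 / 3) : ℝ)) ^ 7 := by
      intro u v huv
      refine (GP_codeg h0.le h1 6 huv).trans ?_
      have e2 : (n.choose (6 + 1) : ℝ) ≤ (n : ℝ) ^ 7 := by
        exact_mod_cast Nat.choose_le_pow n 7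
      calc (n.choose (6 + 1) : ℝ) * (p ^ 2) ^ (6 + 1) ≤ (n : ℝ) ^ 7 * (p ^ 2) ^ 7 :=
            mul_le_mul_of_nonneg_right e2 (by positivity)
        _ = ((n : ℝ) * p ^ 2) ^ 7 := by ring
        _ ≤ _ := pow_le_pow_left₀ (by positivity) e0 7
    refine (GP_exists2 h0.le h1 _ _ (by positivity) e1).trans ?_
    apply le_of_eq
    rw [← Real.rpow_natCast, ← Real.rpow_natCast, ← Real.rpow_mul hn0.le, ← Real.rpow_add hn0]
    congr 1
    norm_num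
  -- 3-paths
  have F3 : GP n p (fun G => ∃ u v, u ≠ v ∧ (CodegLe G 6 ∧ 4 * 6 * M₀ < (pth G u v).card)) ≤
      (n : ℝ) ^ (-1 : ℝ) := by
    have e0 : (n : ℝ) ^ 2 * p ^ 3 ≤ (n : ℝ) ^ (-(3 * δ)) := by
      calc (n : ℝ) ^ 2 * p ^ 3 ≤ (n : ℝ) ^ 2 * ((n : ℝ) ^ (-2 / 3 - δ)) ^ 3 :=
            mul_le_mul_of_nonneg_left (pow_le_pow_left₀ h0.le hp' 3) (by positivity)
        _ = (n : ℝ) ^ (-(3 * δ)) := by
            rw [← Real.rpow_natCast, ← Real.rpow_natCast, ← Real.rpow_mul hn0.le,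
              ← Real.rpow_add hn0]
            congr 1
            push_cast
            ring
    have e1 : ∀ u v : Fin n, u ≠ v →
        GP n p (fun G => CodegLe G 6 ∧ 4 * 6 * M₀ < (pth G u v).card) ≤
        ((n : ℝ) ^ (-(3 * δ))) ^ (M₀ + 1) := by
      intro u v huv
      refine (GP_path3 h0.le h1 6 M₀ huv).trans ?_
      have e2 : ((n ^ 2).choose (M₀ + 1) : ℝ) ≤ ((n : ℝ) ^ 2) ^ (M₀ + 1) := by
        exact_mod_cast Nat.choose_le_pow (n ^ 2) (M₀ + 1)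
      calc ((n ^ 2).choose (M₀ + 1) : ℝ) * (p ^ 3) ^ (M₀ + 1) ≤
            ((n : ℝ) ^ 2) ^ (M₀ + 1) * (p ^ 3) ^ (M₀ + 1) :=
            mul_le_mul_of_nonneg_right e2 (by positivity)
        _ = ((n : ℝ) ^ 2 * p ^ 3) ^ (M₀ + 1) := by rw [mul_pow]
        _ ≤ _ := pow_le_pow_left₀ (by positivity) e0 _
    refine (GP_exists2 h0.le h1 _ _ (by positivity) e1).trans ?_
    rw [← Real.rpow_natCast, ← Real.rpow_natCast, ← Real.rpow_mul hn0.le, ← Real.rpow_add hn0]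
    refine Real.rpow_le_rpow_of_exponent_le hn1 ?_
    have e3 : 1 / δ ≤ M₀ := Nat.le_ceil _
    rw [div_le_iff₀ hδ] at e3
    push_cast
    nlinarith
  -- cycles, upper bound
  have F4 : GP n p (fun G => ∃ v x, v ≠ x ∧ (CodegLe G 6 ∧ Path3Le G (24 * M₀) ∧
      3 * (2 * (24 * M₀) + 6 * 6) * ⌈6 * T⌉₊ < ncyc G v x)) ≤
      (n : ℝ) ^ 2 * Real.exp (-(1 * (n : ℝ) ^ (4 * ε))) := by
    have hD := Nat.le_ceil (6 * T)
    have e1 : ∀ v x : Fin n, v ≠ x → GP n p (fun G => CodegLe G 6 ∧ Path3Le G (24 * M₀) ∧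
        3 * (2 * (24 * M₀) + 6 * 6) * ⌈6 * T⌉₊ < ncyc G v x) ≤
        Real.exp (-(1 * (n : ℝ) ^ (4 * ε))) := by
      intro v x hvx
      refine (GP_cyc h0.le h1 6 (24 * M₀) _ hvx).trans ((choose_mul_pow_le (by positivity)
        ?_).trans (half_pow_le_exp _ ?_))
      · push_cast
        linarith
      · push_cast
        linarith
    exact GP_exists2 h0.le h1 _ _ (Real.exp_pos _).le e1
  -- cycles, lower bound
  set m := n / 4 with hm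
  have hm5 : (n : ℝ) / 5 ≤ m := by
    have : n ≤ 5 * m := by omega
    have : (n : ℝ) ≤ 5 * m := by exact_mod_cast this
    linarith
  have F5 : GP n p (fun G => ∃ v x, v ≠ x ∧ (CodegLe G 6 ∧ G.Adj v x ∧
      (ncyc G v x : ℝ) ≤ p ^ 4 * (m : ℝ) ^ 3 / (16 * (6 : ℕ)))) ≤
      (n : ℝ) ^ 2 * (2 * Real.exp (-((1 / 40) * (n : ℝ) ^ (1 / 4 : ℝ))) +
      Real.exp (-((1 / 400) * (n : ℝ) ^ (1 / 4 : ℝ))) +
      Real.exp (-((1 / 48000) * (n : ℝ) ^ (4 * ε)))) := by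
    have e1 : ∀ v x : Fin n, v ≠ x → GP n p (fun G => CodegLe G 6 ∧ G.Adj v x ∧
      (ncyc G v x : ℝ) ≤ p ^ 4 * (m : ℝ) ^ 3 / (16 * (6 : ℕ))) ≤
        2 * Real.exp (-((1 / 40) * (n : ℝ) ^ (1 / 4 : ℝ))) +
      Real.exp (-((1 / 400) * (n : ℝ) ^ (1 / 4 : ℝ))) +
      Real.exp (-((1 / 48000) * (n : ℝ) ^ (4 * ε))) := by
      intro v x hvx
      obtain ⟨V₁, V₂, V₃, c1, c2, c3, d12, d13, d23, v1, v2, v3, x1, x2, x3⟩ :=
        exists_parts (m := m) (by omega) v x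
      refine (GP_cyc_low h0.le h1 6 m (by norm_num) hvx V₁ V₂ V₃ c1 c2 c3 d12 d13 d23 v1 v2 v3
        x1 x2 x3).trans ?_
      have a1 : (1 / 40) * (n : ℝ) ^ (1 / 4 : ℝ) ≤ p * m / 8 := by
        have := mul_le_mul_of_nonneg_left hm5 h0.le
        linarith
      have a0 : (n : ℝ) ^ (1 / 4 : ℝ) / 5 ≤ p * m := by linarith
      have a2 : (1 / 400) * (n : ℝ) ^ (1 / 4 : ℝ) ≤ p ^ 2 * (m : ℝ) ^ 2 / 16 := by
        have a3 : ((n : ℝ) ^ (1 / 4 : ℝ) / 5) ^ 2 ≤ (p * m) ^ 2 :=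
          pow_le_pow_left₀ (by positivity) a0 2
        rw [← mul_pow]
        nlinarith
      have a4 : (1 / 48000) * (n : ℝ) ^ (4 * ε) ≤ p ^ 4 * (m : ℝ) ^ 3 / (64 * (6 : ℕ)) := by
        have a5 : ((n : ℝ) / 5) ^ 3 ≤ (m : ℝ) ^ 3 := pow_le_pow_left₀ (by positivity) hm5 3
        have a6 := mul_le_mul_of_nonneg_left a5 (pow_nonneg h0.le 4)
        have a7 : p ^ 4 * ((n : ℝ) / 5) ^ 3 = T / 125 := by rw [hT]; ring
        rw [a7] at a6
        push_cast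
        linarith
      have b1 := Real.exp_le_exp.mpr (neg_le_neg a1)
      have b2 := Real.exp_le_exp.mpr (neg_le_neg a2)
      have b3 := Real.exp_le_exp.mpr (neg_le_neg a4)
      linarith
    exact GP_exists2 h0.le h1 _ _ (by positivity) e1
  -- assembly
  have hincl : GP n p (fun G => ¬ Typ G ⌈6 * n * p⌉₊ 6 (24 * M₀)
      (1 / 12000 * n ^ 3 * p ^ 4) ((21 * (48 * M₀ + 36)) * n ^ 3 * p ^ 4)) ≤
      GP n p (fun G => ((∃ v, ⌈6 * n * p⌉₊ < (nbr G v).card) ∨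
        (∃ u v, u ≠ v ∧ 6 < (cod G u v).card)) ∨
        ((∃ u v, u ≠ v ∧ (CodegLe G 6 ∧ 4 * 6 * M₀ < (pth G u v).card)) ∨
        ((∃ v x, v ≠ x ∧ (CodegLe G 6 ∧ Path3Le G (24 * M₀) ∧
          3 * (2 * (24 * M₀) + 6 * 6) * ⌈6 * T⌉₊ < ncyc G v x)) ∨
        (∃ v x, v ≠ x ∧ (CodegLe G 6 ∧ G.Adj v x ∧
          (ncyc G v x : ℝ) ≤ p ^ 4 * (m : ℝ) ^ 3 / (16 * (6 : ℕ))))))) := by
    refine GP_mono h0.le h1 (fun G hG => ?_)
    by_contra hcon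
    rw [not_or, not_or, not_or, not_or] at hcon
    obtain ⟨⟨g1, g2⟩, g3, g4, g5⟩ := hcon
    apply hG
    have k1 : CodegLe G 6 := by
      intro u v huv
      by_contra hc
      exact g2 ⟨u, v, huv, not_le.mp hc⟩
    have k2 : Path3Le G (24 * M₀) := by
      intro u v huv
      by_contra hc
      refine g3 ⟨u, v, huv, k1, ?_⟩
      have := not_le.mp hc
      omega
    refine ⟨fun v => ?_, k1, k2, fun v x hvx => ?_, fun v x hvx => ?_⟩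
    · by_contra hc
      exact g1 ⟨v, not_le.mp hc⟩
    · have h6 : ¬ ((ncyc G v x : ℝ) ≤ p ^ 4 * (m : ℝ) ^ 3 / (16 * (6 : ℕ))) :=
        fun h => g5 ⟨v, x, hvx.ne, k1, hvx, h⟩
      rw [not_le] at h6
      refine le_trans ?_ h6.le
      have a5 : ((n : ℝ) / 5) ^ 3 ≤ (m : ℝ) ^ 3 := pow_le_pow_left₀ (by positivity) hm5 3
      have a6 := mul_le_mul_of_nonneg_left a5 (pow_nonneg h0.le 4)
      have a7 : p ^ 4 * ((n : ℝ) / 5) ^ 3 = T / 125 := by rw [hT]; ring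
      rw [a7] at a6
      push_cast
      have a8 : 1 / 12000 * (n : ℝ) ^ 3 * p ^ 4 = T / 12000 := by rw [hT]; ring
      rw [a8]
      linarith
    · have h6 : ¬ (3 * (2 * (24 * M₀) + 6 * 6) * ⌈6 * T⌉₊ < ncyc G v x) :=
        fun h => g4 ⟨v, x, hvx.ne, k1, k2, h⟩
      rw [not_lt] at h6
      have h7 : (ncyc G v x : ℝ) ≤ 3 * (2 * (24 * M₀) + 6 * 6) * ⌈6 * T⌉₊ := by
        exact_mod_cast h6
      have h8 : (⌈6 * T⌉₊ : ℝ) ≤ 7 * T := by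
        have := Nat.ceil_lt_add_one (show 0 ≤ 6 * T by linarith)
        linarith
      refine h7.trans ?_
      calc 3 * (2 * (24 * (M₀ : ℝ)) + 6 * 6) * ⌈6 * T⌉₊ ≤
            3 * (2 * (24 * (M₀ : ℝ)) + 6 * 6) * (7 * T) :=
            mul_le_mul_of_nonneg_left h8 (by positivity)
        _ = (21 * (48 * M₀ + 36)) * n ^ 3 * p ^ 4 := by rw [hT]; ring
  refine hincl.trans ((GP_or_le h0.le h1 _ _).trans ?_)
  refine (add_le_add (GP_or_le h0.le h1 _ _) ((GP_or_le h0.le h1 _ _).trans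
    (add_le_add_right (GP_or_le h0.le h1 _ _) _))).trans ?_
  unfold errC
  linarith

/-- Random graphs in range (C) are typical with probability tending to one. -/
theorem typ_eventually (ε δ : ℝ) (hε : 0 < ε) (hδ : 0 < δ) :
    ∃ k₁ k₂ : ℕ, ∃ c₁ C₂ : ℝ, 0 < c₁ ∧ 0 < C₂ ∧ ∀ η : ℝ, 0 < η → ∀ᶠ n : ℕ in atTop, ∀ p : ℝ,
      (n : ℝ) ^ (-3 / 4 + ε) ≤ p → p ≤ (n : ℝ) ^ (-2 / 3 - δ) →
      GP n p (fun G => ¬ Typ G ⌈6 * n * p⌉₊ k₁ k₂ (c₁ * n ^ 3 * p ^ 4) (C₂ * n ^ 3 * p ^ 4)) ≤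
        η := by
  refine ⟨6, 24 * ⌈1 / δ⌉₊, 1 / 12000, 21 * (48 * ⌈1 / δ⌉₊ + 36), by norm_num, by positivity, ?_⟩
  intro η hη
  have h1 := (tendsto_errC hε).eventually (gt_mem_nhds hη)
  filter_upwards [h1, eventually_ge_atTop 20] with n hn hn20 p hp hp'
  exact (typ_bound hε hδ hn20 hp hp').trans hn.le

end Pool.Agent.H49.Shot
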