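import Mathlib
import Pool.Agent.H90.Shot.Prob
import Pool.Agent.H49.Shot.TypC

/-!
# Dense range: diameter at most two
-/

set_option autoImplicit false

open Finset Classical Filter Topology

namespace Pool.Agent.H49.Shot

open Pool.Agent.H90.Shot

/-- Disjoint families are independent. -/
theorem Pr_none_le {α ι : Type*} {p : ℝ} (h0 : 0 ≤ p) (h1 : p ≤ 1) (F : ι → Finset α) (k : ℕ)
    (W : Finset ι) : ∀ U : Finset α, (∀ w ∈ W, F w ⊆ U) → (∀ w ∈ W, (F w).card = k) →
    (∀ w ∈ W, ∀ w' ∈ W, w ≠ w' → Disjoint (F w) (F w')) →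
    Pr p U (fun S => ∀ w ∈ W, ¬ F w ⊆ S) ≤ (1 - p ^ k) ^ W.card := by
  have hpk : 0 ≤ 1 - p ^ k := by
    have := pow_le_one₀ (n := k) h0 h1
    linarith
  induction W using Finset.induction_on with
  | empty =>
    intro U _ _ _
    rw [Finset.card_empty, pow_zero]
    exact Pr_le_one h0 h1 _ _
  | insert a W ha ih =>
    intro U hU hk hd
    have hdis : Disjoint (F a) (U \ F a) := Finset.disjoint_sdiff
    have hUe : U = F a ∪ (U \ F a) :=
      (Finset.union_sdiff_of_subset (hU a (Finset.mem_insert_self a W))).symm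
    have hsub : ∀ w ∈ W, F w ⊆ U \ F a := by
      intro w hw e he
      rw [Finset.mem_sdiff]
      refine ⟨hU w (Finset.mem_insert_of_mem hw) he, ?_⟩
      have hwa : w ≠ a := fun h => ha (by rw [← h]; exact hw)
      exact Finset.disjoint_left.mp (hd w (Finset.mem_insert_of_mem hw) a
        (Finset.mem_insert_self a W) hwa) he
    have h2 := ih (U \ F a) hsub (fun w hw => hk w (Finset.mem_insert_of_mem hw))
      (fun w hw w' hw' => hd w (Finset.mem_insert_of_mem hw) w' (Finset.mem_insert_of_mem hw'))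
    have h3 : Pr p U (fun S => ∀ w ∈ insert a W, ¬ F w ⊆ S) =
        Ex p (F a) (fun S₁ => ind (¬ F a ⊆ S₁) *
          Pr p (U \ F a) (fun S => ∀ w ∈ W, ¬ F w ⊆ S)) := by
      conv_lhs => rw [hUe]
      unfold Pr
      rw [Ex_union p hdis]
      refine Ex_congr (fun S₁ hS₁ => ?_)
      rw [← Ex_smul]
      refine Ex_congr (fun S₂ hS₂ => ?_)
      have e1 : F a ⊆ S₁ ∪ S₂ ↔ F a ⊆ S₁ := by
        constructor
        · intro h e he
          rcases Finset.mem_union.mp (h he) with h' | h'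
          · exact h'
          · exact absurd he (Finset.disjoint_right.mp hdis (hS₂ h'))
        · intro h
          exact h.trans Finset.subset_union_left
      have e2 : ∀ w ∈ W, (F w ⊆ S₁ ∪ S₂ ↔ F w ⊆ S₂) := by
        intro w hw
        constructor
        · intro h e he
          rcases Finset.mem_union.mp (h he) with h' | h'
          · exact absurd (hS₁ h') (Finset.mem_sdiff.mp (hsub w hw he)).2
          · exact h'
        · intro h
          exact h.trans Finset.subset_union_right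
      have e3 : (∀ w ∈ insert a W, ¬ F w ⊆ S₁ ∪ S₂) ↔ (¬ F a ⊆ S₁ ∧ ∀ w ∈ W, ¬ F w ⊆ S₂) := by
        rw [Finset.forall_mem_insert, e1]
        refine and_congr_right (fun _ => ?_)
        refine forall_congr' (fun w => forall_congr' (fun hw => ?_))
        rw [e2 w hw]
      by_cases c1 : F a ⊆ S₁
      · rw [ind_false (fun h => (e3.mp h).1 c1), ind_false (fun h => h c1), zero_mul]
      · by_cases c2 : ∀ w ∈ W, ¬ F w ⊆ S₂
        · rw [ind_true (e3.mpr ⟨c1, c2⟩), ind_true c1, ind_true c2, one_mul]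
        · rw [ind_false (fun h => c2 (e3.mp h).2), ind_false c2, mul_zero]
    have h4 : Ex p (F a) (fun S₁ => ind (¬ F a ⊆ S₁) *
          Pr p (U \ F a) (fun S => ∀ w ∈ W, ¬ F w ⊆ S)) =
        Pr p (U \ F a) (fun S => ∀ w ∈ W, ¬ F w ⊆ S) * (1 - p ^ k) := by
      have h5 : Pr p (F a) (fun S₁ => ¬ F a ⊆ S₁) = 1 - p ^ k := by
        rw [Pr_not, Pr_subset p (le_refl (F a)), hk a (Finset.mem_insert_self a W)]
      rw [← h5]
      unfold Pr
      rw [← Ex_smul]
      exact Ex_congr (fun S _ => mul_comm _ _)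
    rw [h3, h4, Finset.card_insert_of_notMem ha, pow_succ]
    exact mul_le_mul_of_nonneg_right h2 hpk

theorem GP_no_common {n : ℕ} {p : ℝ} (h0 : 0 ≤ p) (h1 : p ≤ 1) {u v : Fin n} (huv : u ≠ v) :
    GP n p (fun G => ∀ z, ¬ (G.Adj u z ∧ G.Adj z v)) ≤ (1 - p ^ 2) ^ (n - 2) := by
  obtain ⟨W, hWd⟩ : ∃ W : Finset (Fin n), W = univ \ {u, v} := ⟨_, rfl⟩
  have hW : ∀ w ∈ W, w ≠ u ∧ w ≠ v := by
    intro w hw
    rw [hWd] at hw
    simpa using hw
  have hWc : n - 2 ≤ W.card := by
    have h3 := Finset.le_card_sdiff ({u, v} : Finset (Fin n)) univ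
    have h2 : ({u, v} : Finset (Fin n)).card ≤ 2 := Finset.card_le_two
    rw [Finset.card_univ, Fintype.card_fin] at h3
    rw [hWd]
    omega
  have h := Pr_none_le (p := p) h0 h1 (fun w : Fin n => ({s(u, w), s(w, v)} : Finset (Sym2 (Fin n))))
    2 W (pairs n) ?_ ?_ ?_
  · rw [GP_eq]
    refine (Pr_mono h0 h1 (fun S hS hG => ?_)).trans (h.trans ?_)
    · intro w hw hsub
      have h3 : s(u, w) ∈ S := hsub (Finset.mem_insert_self _ _)
      have h4 : s(w, v) ∈ S := hsub (Finset.mem_insert_of_mem (Finset.mem_singleton_self _))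
      apply hG w
      rw [SimpleGraph.fromEdgeSet_adj, SimpleGraph.fromEdgeSet_adj]
      exact ⟨⟨Finset.mem_coe.mpr h3, (hW w hw).1.symm⟩, ⟨Finset.mem_coe.mpr h4, (hW w hw).2⟩⟩
    · have h5 : 0 ≤ p ^ 2 := by positivity
      have h6 : p ^ 2 ≤ 1 := pow_le_one₀ h0 h1
      exact pow_le_pow_of_le_one (by linarith) (by linarith) hWc
  · intro w hw e he
    rw [mem_pairs]
    rcases Finset.mem_insert.mp he with h | h
    · rw [h, Sym2.mk_isDiag_iff]
      exact (hW w hw).1.symm
    · rw [Finset.mem_singleton] at h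
      rw [h, Sym2.mk_isDiag_iff]
      exact (hW w hw).2
  · intro w hw
    refine Finset.card_pair ?_
    intro he
    rw [Sym2.eq_iff] at he
    rcases he with ⟨h2, _⟩ | ⟨h2, _⟩
    · exact (hW w hw).1 h2.symm
    · exact huv h2
  · intro i hi j hj hij
    refine disjoint_edges (A := {i}) (B := {j}) (W := {u, v}) ?_ ?_ ?_ ?_
    · intro e he
      refine ⟨i, Finset.mem_singleton_self i, ?_⟩
      rcases Finset.mem_insert.mp he with h | h
      · rw [h]; exact Sym2.mem_mk_right u i
      · rw [Finset.mem_singleton] at h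
        rw [h]; exact Sym2.mem_mk_left i v
    · intro e he w hw
      rcases Finset.mem_insert.mp he with h | h
      · rw [h, Sym2.mem_iff] at hw
        rcases hw with h | h <;> simp [h]
      · rw [Finset.mem_singleton] at h
        rw [h, Sym2.mem_iff] at hw
        rcases hw with h | h <;> simp [h]
    · intro w hw hw'
      rw [Finset.mem_singleton] at hw
      rw [hw, Finset.mem_insert, Finset.mem_singleton] at hw'
      rcases hw' with h | h
      · exact (hW i hi).1 h
      · exact (hW i hi).2 h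
    · intro w hw hw'
      rw [Finset.mem_singleton] at hw hw'
      exact hij (hw.symm.trans hw')

/-- Bad graphs: some non-isomorphic graph has the same views. -/
def Bad {n : ℕ} (G : SimpleGraph (Fin n)) : Prop :=
  ∃ H : SimpleGraph (Fin n), Nonempty (Views G H) ∧ ¬ Nonempty (G ≃g H)

theorem not_bad_of_common {n : ℕ} {G : SimpleGraph (Fin n)}
    (h : ∀ u v, u ≠ v → ∃ z, G.Adj u z ∧ G.Adj z v) : ¬ Bad G := by
  rintro ⟨H, ⟨W⟩, hne⟩
  apply hne
  by_cases hn : Nonempty (Fin n)
  · obtain ⟨v⟩ := hn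
    have hball : ball G v = Set.univ := by
      ext w
      simp only [Set.mem_univ, iff_true]
      by_cases hvw : v = w
      · rw [hvw]
        simp [ball]
      · obtain ⟨z, h1, h2⟩ := h v w hvw
        show G.edist v w ≤ 2
        have := (SimpleGraph.Walk.cons h1 (SimpleGraph.Walk.cons h2 SimpleGraph.Walk.nil)).edist_le
        simpa using this
    have hb := W.bij v
    have hadj := W.adj v
    rw [hball] at hb
    have hballH : ball H v = Set.univ := by
      have hc : (W.g v) '' (ball H v) = Set.univ := hb.image_eq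
      have h1 : (ball H v).ncard = n := by
        rw [← hb.injOn.ncard_image, hc, Set.ncard_univ, Nat.card_eq_fintype_card,
          Fintype.card_fin]
      refine Set.eq_of_subset_of_ncard_le (Set.subset_univ _) ?_ (Set.toFinite _)
      rw [h1, Set.ncard_univ, Nat.card_eq_fintype_card, Fintype.card_fin]
    rw [hballH] at hb hadj
    have hbij : Function.Bijective (W.g v) := Set.bijOn_univ.mp hb
    refine ⟨(RelIso.symm ⟨Equiv.ofBijective (W.g v) hbij, ?_⟩ : G ≃g H)⟩
    intro a b
    exact (hadj a (Set.mem_univ _) b (Set.mem_univ _)).symm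
  · refine ⟨⟨Equiv.refl _, ?_⟩⟩
    intro a
    exact absurd ⟨a⟩ hn

theorem rangeA (η : ℝ) (hη : 0 < η) : ∀ᶠ n : ℕ in atTop, ∀ p : ℝ, 0 ≤ p → p ≤ 1 →
    3 * Real.log n ≤ n * p ^ 2 → GP n p Bad ≤ η := by
  have h1 : Tendsto (fun n : ℕ => Real.exp 2 * (n : ℝ)⁻¹) atTop (𝓝 0) := by
    have := (tendsto_inv_atTop_nhds_zero_nat (𝕜 := ℝ)).const_mul (Real.exp 2)
    simpa using this
  filter_upwards [h1.eventually (gt_mem_nhds hη), eventually_ge_atTop 2] with n hn hn2 p h0 h1 hp
  have hn0 : (0 : ℝ) < n := by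
    have : 0 < n := by omega
    exact_mod_cast this
  have h2 : GP n p Bad ≤ GP n p (fun G => ∃ u v, u ≠ v ∧ ∀ z, ¬ (G.Adj u z ∧ G.Adj z v)) := by
    refine GP_mono h0 h1 (fun G hG => ?_)
    by_contra hcon
    push Not at hcon
    refine not_bad_of_common (fun u v huv => ?_) hG
    exact hcon u v huv
  refine h2.trans ((GP_exists2 h0 h1 _ ((1 - p ^ 2) ^ (n - 2))
    (pow_nonneg (by have := pow_le_one₀ (n := 2) h0 h1; linarith) _)
    (fun u v huv => GP_no_common h0 h1 huv)).trans (le_trans ?_ hn.le))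
  have h3 : (1 - p ^ 2) ^ (n - 2) ≤ Real.exp (-(p ^ 2)) ^ (n - 2) := by
    refine pow_le_pow_left₀ (by have := pow_le_one₀ (n := 2) h0 h1; linarith) ?_ _
    have := Real.add_one_le_exp (-(p ^ 2))
    linarith
  have h4 : Real.exp (-(p ^ 2)) ^ (n - 2) ≤ Real.exp 2 * Real.exp (-(3 * Real.log n)) := by
    rw [← Real.exp_nat_mul, ← Real.exp_add]
    refine Real.exp_le_exp.mpr ?_
    have e1 : ((n - 2 : ℕ) : ℝ) = (n : ℝ) - 2 := by
      push_cast [Nat.cast_sub hn2]
      ring
    rw [e1]
    have := pow_le_one₀ (n := 2) h0 h1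
    nlinarith
  have h5 : Real.exp (-(3 * Real.log n)) = ((n : ℝ) ^ 3)⁻¹ := by
    rw [Real.exp_neg, mul_comm, Real.exp_mul, Real.exp_log hn0]
    norm_num
  calc (n : ℝ) ^ 2 * (1 - p ^ 2) ^ (n - 2) ≤ (n : ℝ) ^ 2 *
        (Real.exp 2 * Real.exp (-(3 * Real.log n))) :=
        mul_le_mul_of_nonneg_left (h3.trans h4) (by positivity)
    _ = Real.exp 2 * (n : ℝ)⁻¹ := by
        rw [h5]
        field_simp

end Pool.Agent.H49.Shot
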