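import Mathlib
import Pool.Agent.H49.Shot.RangeA

/-!
# Assembly: from the three ranges to the frozen statement
-/

set_option autoImplicit false

open Finset Classical Filter Topology

namespace Pool.Agent.H49.Shot

open Pool.Agent.H90.Shot

/-- the property of the frozen statement -/
def Recon {n : ℕ} (G : SimpleGraph (Fin n)) : Prop :=
  ∀ H : SimpleGraph (Fin n),
    (∃ σ : Fin n ≃ Fin n, ∀ v : Fin n,
      ∃ f : Fin n → Fin n, f v = σ v ∧
        Set.BijOn f {w | G.edist v w ≤ 2} {w | H.edist (σ v) w ≤ 2} ∧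
        ∀ a ∈ {w | G.edist v w ≤ 2}, ∀ b ∈ {w | G.edist v w ≤ 2},
          (G.Adj a b ↔ H.Adj (f a) (f b))) →
    Nonempty (G ≃g H)

theorem edist_iso_le {V W : Type*} {G : SimpleGraph V} {H : SimpleGraph W} (φ : G ≃g H)
    (a b : V) : H.edist (φ a) (φ b) ≤ G.edist a b := by
  unfold SimpleGraph.edist
  refine le_iInf (fun w => ?_)
  have h := iInf_le (fun w : H.Walk (φ a) (φ b) => ((w.length : ℕ) : ℕ∞)) (w.map φ.toHom)
  simp only [SimpleGraph.Walk.length_map] at h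
  exact h

theorem edist_comap {n : ℕ} (H : SimpleGraph (Fin n)) (σ : Fin n ≃ Fin n) (v w : Fin n) :
    (H.comap σ).edist v w = H.edist (σ v) (σ w) := by
  let φ : H.comap σ ≃g H := ⟨σ, fun {a b} => Iff.rfl⟩
  apply le_antisymm
  · have h := edist_iso_le φ.symm (σ v) (σ w)
    have e : ∀ z, φ.symm (σ z) = z := fun z => σ.symm_apply_apply z
    rwa [e, e] at h
  · exact edist_iso_le φ v w

/-- A graph which is not bad has the property of the frozen statement. -/
theorem recon_of_not_bad {n : ℕ} {G : SimpleGraph (Fin n)} (hG : ¬ Bad G) : Recon G := by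
  intro H hH
  obtain ⟨σ, hσ⟩ := hH
  choose f hf using hσ
  by_contra hne
  apply hG
  refine ⟨H.comap σ, ?_, ?_⟩
  · -- views
    have hb : ∀ v, Set.BijOn (fun w => σ.symm (f v w)) (ball G v) (ball (H.comap σ) v) := by
      intro v
      have h1 : Set.BijOn (f v) (ball G v) {w | H.edist (σ v) w ≤ 2} := (hf v).2.1
      have h2 : Set.BijOn σ.symm {w | H.edist (σ v) w ≤ 2} (ball (H.comap σ) v) := by
        refine ⟨?_, σ.symm.injective.injOn, ?_⟩
        · intro w hw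
          show (H.comap σ).edist v (σ.symm w) ≤ 2
          rw [edist_comap, Equiv.apply_symm_apply]
          exact hw
        · intro w hw
          refine ⟨σ w, ?_, by simp⟩
          show H.edist (σ v) (σ w) ≤ 2
          rw [← edist_comap]
          exact hw
      exact h2.comp h1
    have hadj : ∀ v, ∀ a ∈ ball G v, ∀ b ∈ ball G v,
        (G.Adj a b ↔ (H.comap σ).Adj (σ.symm (f v a)) (σ.symm (f v b))) := by
      intro v a ha b hb'
      rw [SimpleGraph.comap_adj, Equiv.apply_symm_apply, Equiv.apply_symm_apply]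
      exact (hf v).2.2 a ha b hb'
    have hv : ∀ v, v ∈ ball G v := fun v => by simp [ball]
    have hex : ∀ v, ∃ g : Fin n → Fin n, g v = v ∧ Set.BijOn g (ball (H.comap σ) v) (ball G v) ∧
        ∀ a ∈ ball (H.comap σ) v, ∀ b ∈ ball (H.comap σ) v,
          ((H.comap σ).Adj a b ↔ G.Adj (g a) (g b)) := by
      intro v
      have hne : Nonempty (Fin n) := ⟨v⟩
      have hinv : Set.InvOn (Function.invFunOn (fun w => σ.symm (f v w)) (ball G v))
        (fun w => σ.symm (f v w)) (ball G v) (ball (H.comap σ) v) := (hb v).invOn_invFunOn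
      refine ⟨Function.invFunOn (fun w => σ.symm (f v w)) (ball G v), ?_,
        Set.BijOn.symm hinv.symm (hb v), ?_⟩
      · have h1 : σ.symm (f v v) = v := by rw [(hf v).1, Equiv.symm_apply_apply]
        have h2 := hinv.1 (hv v)
        simp only [h1] at h2
        exact h2
      · intro a ha b hb'
        have m1 := (Set.BijOn.symm hinv.symm (hb v)).mapsTo ha
        have m2 := (Set.BijOn.symm hinv.symm (hb v)).mapsTo hb'
        have r1 := hinv.2 ha
        have r2 := hinv.2 hb'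
        rw [hadj v _ m1 _ m2]
        simp only at r1 r2
        rw [r1, r2]
    choose g hg using hex
    exact ⟨⟨g, fun v => (hg v).1, fun v => (hg v).2.1, fun v => (hg v).2.2⟩⟩
  · rintro ⟨e⟩
    apply hne
    let φ : H.comap σ ≃g H := ⟨σ, fun {a b} => Iff.rfl⟩
    exact ⟨e.trans φ⟩

/-- Assembly. -/
theorem main_of_ranges
    (hB : ∃ δ : ℝ, 0 < δ ∧ ∀ η : ℝ, 0 < η → ∀ᶠ n : ℕ in atTop, ∀ p : ℝ,
      (n : ℝ) ^ (-2 / 3 - δ) ≤ p → n * p ^ 2 ≤ 3 * Real.log n →
      GP n p (fun G => ∃ H, Nonempty (Views G H) ∧ H ≠ G) ≤ η)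
    (hC : ∀ ε δ : ℝ, 0 < ε → 0 < δ → ∀ η : ℝ, 0 < η → ∀ᶠ n : ℕ in atTop, ∀ p : ℝ,
      (n : ℝ) ^ (-3 / 4 + ε) ≤ p → p ≤ (n : ℝ) ^ (-2 / 3 - δ) →
      GP n p (fun G => ∃ H, Nonempty (Views G H) ∧ H ≠ G) ≤ η)
    (ε : ℝ) (hε : 0 < ε) (p : ℕ → ℝ)
    (hp : ∀ᶠ n : ℕ in Filter.atTop, (n : ℝ) ^ (-(3/4 : ℝ) + ε) ≤ p n ∧ p n ≤ (n : ℝ) ^ (-ε)) :
    Filter.Tendsto (fun n : ℕ => GP n (p n) Recon) Filter.atTop (nhds 1) := by
  obtain ⟨δ, hδ, hB⟩ := hB
  rw [Metric.tendsto_atTop']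
  intro η hη
  have hη2 : 0 < η / 2 := by linarith
  have h := ((((hp.and (hB (η / 2) hη2)).and (hC ε δ hε hδ (η / 2) hη2)).and
    (rangeA (η / 2) hη2)).and (eventually_ge_atTop 1))
  rw [eventually_atTop] at h
  obtain ⟨N, hN⟩ := h
  refine ⟨N, fun n hn => ?_⟩
  obtain ⟨⟨⟨⟨⟨hp1, hp2⟩, hB⟩, hC⟩, hA⟩, hn1⟩ := hN n hn.le
  have hn1' : (1 : ℝ) ≤ n := by exact_mod_cast hn1
  have hn0 : (0 : ℝ) < n := by linarith
  have h0 : 0 ≤ p n := le_trans (Real.rpow_nonneg hn0.le _) hp1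
  have h1 : p n ≤ 1 := hp2.trans (Real.rpow_le_one_of_one_le_of_nonpos hn1' (by linarith))
  have hbad : GP n (p n) Bad ≤ η / 2 := by
    have hmono : GP n (p n) Bad ≤ GP n (p n) (fun G => ∃ H, Nonempty (Views G H) ∧ H ≠ G) := by
      refine GP_mono h0 h1 (fun G hG => ?_)
      obtain ⟨H, hW, hne⟩ := hG
      refine ⟨H, hW, fun h => hne ?_⟩
      rw [h]
      exact ⟨SimpleGraph.Iso.refl⟩
    by_cases c1 : (n : ℝ) ^ (-2 / 3 - δ) ≤ p n
    · by_cases c2 : n * p n ^ 2 ≤ 3 * Real.log n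
      · exact hmono.trans (hB (p n) c1 c2)
      · exact hA (p n) h0 h1 (not_le.mp c2).le
    · refine hmono.trans (hC (p n) ?_ (not_le.mp c1).le)
      have e : (-3 / 4 + ε : ℝ) = -(3 / 4) + ε := by ring
      rw [e]
      exact hp1
  have h2 : GP n (p n) Recon ≤ 1 := GP_le_one h0 h1 _
  have h3 : 1 - η / 2 ≤ GP n (p n) Recon := by
    have h4 : GP n (p n) (fun G => ¬ Bad G) ≤ GP n (p n) Recon :=
      GP_mono h0 h1 (fun G hG => recon_of_not_bad hG)
    rw [GP_not] at h4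
    linarith
  rw [Real.dist_eq, abs_lt]
  constructor <;> linarith

/-- The sum of the frozen statement. -/
theorem frozen_sum (n : ℕ) (p : ℝ) :
    (∑ G : SimpleGraph (Fin n),
        if (∀ H : SimpleGraph (Fin n),
              (∃ σ : Fin n ≃ Fin n, ∀ v : Fin n,
                ∃ f : Fin n → Fin n, f v = σ v ∧
                  Set.BijOn f {w | G.edist v w ≤ 2} {w | H.edist (σ v) w ≤ 2} ∧
                  ∀ a ∈ {w | G.edist v w ≤ 2}, ∀ b ∈ {w | G.edist v w ≤ 2},
                    (G.Adj a b ↔ H.Adj (f a) (f b))) →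
              Nonempty (G ≃g H))
        then p ^ G.edgeFinset.card * (1 - p) ^ (n.choose 2 - G.edgeFinset.card)
        else 0) = GP n p Recon := by
  unfold GP Recon
  congr! 2

end Pool.Agent.H49.Shot
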