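import Mathlib
import Pool.Agent.H68.Shot.CodeOne
import Pool.Agent.H68.Shot.CodeTwoFinal

/-!
# Probability of codes in range (C)
-/

set_option autoImplicit false

open Finset Classical Filter Topology

namespace Pool.Agent.H49.Shot

open Pool.Agent.H90.Shot Pool.Agent.H68.Shot

/-- elementary facts in range (C) -/
structure Rng (δ : ℝ) (n : ℕ) (p : ℝ) : Prop where
  n1 : (2 : ℝ) ≤ n
  p0 : 0 < p
  p1 : p ≤ 1
  lam : (n : ℝ) ^ 2 * p ^ 3 ≤ (n : ℝ) ^ (-(3 * δ))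
  d5 : (n : ℝ) ^ 3 * p ^ 5 ≤ (n : ℝ) ^ (-(1 / 3) : ℝ)
  T0 : 0 < (n : ℝ) ^ 3 * p ^ 4

theorem rng_of {ε δ : ℝ} (hδ : 0 < δ) {n : ℕ} (hn : 2 ≤ n) {p : ℝ}
    (hp : (n : ℝ) ^ (-3 / 4 + ε) ≤ p) (hp' : p ≤ (n : ℝ) ^ (-2 / 3 - δ)) : Rng δ n p := by
  have hn2 : (2 : ℝ) ≤ n := by exact_mod_cast hn
  have hn1 : (1 : ℝ) ≤ n := by linarith
  have hn0 : (0 : ℝ) < n := by linarith
  have h0 : 0 < p := lt_of_lt_of_le (Real.rpow_pos_of_pos hn0 _) hp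
  have h1 : p ≤ 1 := hp'.trans (Real.rpow_le_one_of_one_le_of_nonpos hn1 (by linarith))
  refine ⟨hn2, h0, h1, ?_, ?_, by positivity⟩
  · calc (n : ℝ) ^ 2 * p ^ 3 ≤ (n : ℝ) ^ 2 * ((n : ℝ) ^ (-2 / 3 - δ)) ^ 3 :=
            mul_le_mul_of_nonneg_left (pow_le_pow_left₀ h0.le hp' 3) (by positivity)
        _ = (n : ℝ) ^ (-(3 * δ)) := by
            rw [← Real.rpow_natCast, ← Real.rpow_natCast, ← Real.rpow_mul hn0.le,
              ← Real.rpow_add hn0]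
            congr 1
            push_cast
            ring
  · calc (n : ℝ) ^ 3 * p ^ 5 ≤ (n : ℝ) ^ 3 * ((n : ℝ) ^ (-2 / 3 - δ)) ^ 5 :=
            mul_le_mul_of_nonneg_left (pow_le_pow_left₀ h0.le hp' 5) (by positivity)
        _ = (n : ℝ) ^ (-(1 / 3) - 5 * δ : ℝ) := by
            rw [← Real.rpow_natCast, ← Real.rpow_natCast, ← Real.rpow_mul hn0.le,
              ← Real.rpow_add hn0]
            congr 1
            push_cast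
            ring
        _ ≤ (n : ℝ) ^ (-(1 / 3) : ℝ) := Real.rpow_le_rpow_of_exponent_le hn1 (by linarith)

theorem pow_div_factorial_le_pow {w ρ : ℝ} {K : ℕ} (hw : 0 ≤ w) (hρ : 0 ≤ ρ) (hK : 0 < K)
    (h : 3 * w ≤ K * ρ) : w ^ K / (K.factorial : ℝ) ≤ ρ ^ K := by
  have hK' : (0 : ℝ) < K := by exact_mod_cast hK
  have h1 : (K : ℝ) ^ K / (K.factorial : ℝ) ≤ Real.exp K :=
    Real.pow_div_factorial_le_exp (K : ℝ) hK'.le K
  have h2 : Real.exp K ≤ 3 ^ K := by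
    have : Real.exp K = Real.exp 1 ^ K := by rw [← Real.exp_nat_mul, mul_one]
    rw [this]
    refine pow_le_pow_left₀ (Real.exp_pos 1).le ?_ K
    have := Real.exp_one_lt_d9
    linarith
  have h3 : w ≤ (K * ρ) / 3 := by linarith
  calc w ^ K / (K.factorial : ℝ) ≤ ((K * ρ) / 3) ^ K / (K.factorial : ℝ) :=
        div_le_div_of_nonneg_right (pow_le_pow_left₀ hw h3 K) (Nat.cast_nonneg _)
    _ = (ρ ^ K / 3 ^ K) * ((K : ℝ) ^ K / (K.factorial : ℝ)) := by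
        rw [div_pow, mul_pow]; ring
    _ ≤ (ρ ^ K / 3 ^ K) * 3 ^ K := mul_le_mul_of_nonneg_left (h1.trans h2) (by positivity)
    _ = ρ ^ K := by field_simp

/-- the numerical form of the union bounds -/
theorem union_numeric {n : ℕ} (hn : (1 : ℝ) ≤ n) {w c x y : ℝ} {K E : ℕ} (hw : 0 ≤ w)
    (hK : 0 < K) (h : 3 * w ≤ K * (n : ℝ) ^ (-c)) (hE : (E : ℝ) ≤ x) (hc : x + y ≤ c * K) :
    (n : ℝ) ^ E * (w ^ K / (K.factorial : ℝ)) ≤ (n : ℝ) ^ (-y) := by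
  have hn0 : (0 : ℝ) < n := by linarith
  have h1 := pow_div_factorial_le_pow hw (Real.rpow_nonneg hn0.le (-c)) hK h
  calc (n : ℝ) ^ E * (w ^ K / (K.factorial : ℝ)) ≤ (n : ℝ) ^ E * ((n : ℝ) ^ (-c)) ^ K :=
        mul_le_mul_of_nonneg_left h1 (by positivity)
    _ = (n : ℝ) ^ ((E : ℝ) + -c * K) := by
        rw [Real.rpow_add hn0, Real.rpow_natCast, Real.rpow_mul hn0.le, Real.rpow_natCast]
    _ ≤ (n : ℝ) ^ (-y) := Real.rpow_le_rpow_of_exponent_le hn (by linarith)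

theorem P1 (ε δ : ℝ) (hε : 0 < ε) (hδ : 0 < δ) (CM κ : ℝ) (hCM : 0 < CM) (hκ : 0 < κ) :
    ∀ᶠ n : ℕ in atTop, ∀ p : ℝ, (n : ℝ) ^ (-3 / 4 + ε) ≤ p → p ≤ (n : ℝ) ^ (-2 / 3 - δ) →
      ∀ D M₀ K₀ : ℕ, (D : ℝ) ≤ 7 * (n * p) → (M₀ : ℝ) ≤ CM * (n ^ 3 * p ^ 4) →
      κ * (n ^ 3 * p ^ 4) - 1 ≤ (K₀ : ℝ) →
      GP n p (fun G => CodeII G 1 M₀ D 1 1 K₀) ≤ (n : ℝ) ^ (-4 : ℝ) := by
  have t1 : Tendsto (fun n : ℕ => (n : ℝ) ^ (4 * ε)) atTop atTop :=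
    (tendsto_rpow_atTop (by linarith)).comp tendsto_natCast_atTop_atTop
  have t2 : Tendsto (fun n : ℕ => (n : ℝ) ^ δ) atTop atTop :=
    (tendsto_rpow_atTop hδ).comp tendsto_natCast_atTop_atTop
  filter_upwards [eventually_ge_atTop 2, t1.eventually (eventually_ge_atTop (2 / κ)),
    t1.eventually (eventually_ge_atTop (8 / (δ * κ))),
    t2.eventually (eventually_ge_atTop (9216 * (CM + 163840) / κ))] with
    n hn hn1 hn2 hn3 p hp hp' D M₀ K₀ hD hM hK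
  have R := rng_of hδ hn hp hp'
  have h0 := R.p0
  have h1 := R.p1
  have hn1' : (1 : ℝ) ≤ n := by linarith [R.n1]
  have hn0 : (0 : ℝ) < n := by linarith
  obtain ⟨T, hT⟩ : ∃ T : ℝ, T = (n : ℝ) ^ 3 * p ^ 4 := ⟨_, rfl⟩
  have hT0 : 0 < T := by rw [hT]; exact R.T0
  rw [← hT] at hM hK
  have hTn : (n : ℝ) ^ (4 * ε) ≤ T := by
    have e1 : ((n : ℝ) ^ (-3 / 4 + ε)) ^ 4 ≤ p ^ 4 :=
      pow_le_pow_left₀ (Real.rpow_nonneg hn0.le _) hp 4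
    calc (n : ℝ) ^ (4 * ε) = (n : ℝ) ^ 3 * ((n : ℝ) ^ (-3 / 4 + ε)) ^ 4 := by
          rw [← Real.rpow_natCast, ← Real.rpow_natCast, ← Real.rpow_mul hn0.le,
            ← Real.rpow_add hn0]
          congr 1
          push_cast
          ring
      _ ≤ T := by rw [hT]; exact mul_le_mul_of_nonneg_left e1 (by positivity)
  have hK2 : κ * T / 2 ≤ K₀ := by
    have h3 : 2 / κ ≤ T := hn1.trans hTn
    rw [div_le_iff₀ hκ] at h3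
    linarith
  have hK0 : 0 < K₀ := by
    have : (0 : ℝ) < K₀ := lt_of_lt_of_le (by positivity) hK2
    exact_mod_cast this
  have hK3 : 4 + 4 ≤ (2 * δ) * (K₀ : ℝ) := by
    have h3 : 8 / (δ * κ) ≤ T := hn2.trans hTn
    rw [div_le_iff₀ (by positivity)] at h3
    have := mul_le_mul_of_nonneg_left hK2 (show 0 ≤ 2 * δ by linarith)
    nlinarith
  refine (codeII_bound hn h0.le h1 1 M₀ D 1 1 K₀ le_rfl (by norm_num)).trans ?_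
  rw [if_neg (by norm_num)]
  have hd8 : (n : ℝ) * p + D ≤ 8 * (n * p) := by linarith
  have hd0 : 0 ≤ (n : ℝ) * p + D := by positivity
  refine union_numeric (x := 4) (y := 4) (c := 2 * δ) hn1' (by positivity) hK0 ?_
    (by push_cast; norm_num) hK3
  have e1 : (M₀ : ℝ) + 320 * ((1 : ℕ) : ℝ) * ((1 : ℕ) : ℝ) ^ (1 - 1) *
      (n * p + D) ^ (4 - 1) * p ≤ (CM + 163840) * T := by
    have e2 : ((n : ℝ) * p + D) ^ 3 ≤ (8 * (n * p)) ^ 3 := pow_le_pow_left₀ hd0 hd8 3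
    have e3 : ((n : ℝ) * p + D) ^ 3 * p ≤ (8 * (n * p)) ^ 3 * p :=
      mul_le_mul_of_nonneg_right e2 h0.le
    have e4 : (8 * ((n : ℝ) * p)) ^ 3 * p = 512 * T := by rw [hT]; ring
    rw [e4] at e3
    norm_num
    linarith
  have e5 : 24 * p * ((n : ℝ) * p + D) ^ 2 ≤ 1536 * (n : ℝ) ^ (-(3 * δ)) := by
    have e2 : ((n : ℝ) * p + D) ^ 2 ≤ (8 * (n * p)) ^ 2 := pow_le_pow_left₀ hd0 hd8 2
    calc 24 * p * ((n : ℝ) * p + D) ^ 2 ≤ 24 * p * (8 * (n * p)) ^ 2 :=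
          mul_le_mul_of_nonneg_left e2 (by positivity)
      _ = 1536 * ((n : ℝ) ^ 2 * p ^ 3) := by ring
      _ ≤ _ := mul_le_mul_of_nonneg_left R.lam (by norm_num)
  have e6 : (n : ℝ) ^ (-(3 * δ)) = (n : ℝ) ^ (-(2 * δ)) * ((n : ℝ) ^ δ)⁻¹ := by
    rw [← Real.rpow_neg hn0.le, ← Real.rpow_add hn0]
    congr 1
    ring
  have hpos : 0 < (n : ℝ) ^ δ := Real.rpow_pos_of_pos hn0 _
  have hpos2 : 0 < (n : ℝ) ^ (-(2 * δ)) := Real.rpow_pos_of_pos hn0 _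
  have e7 : 4608 * (CM + 163840) * ((n : ℝ) ^ δ)⁻¹ ≤ κ / 2 := by
    rw [← div_eq_mul_inv, div_le_iff₀ hpos]
    rw [div_le_iff₀ hκ] at hn3
    linarith
  calc 3 * (((M₀ : ℝ) + 320 * ((1 : ℕ) : ℝ) * ((1 : ℕ) : ℝ) ^ (1 - 1) *
      (n * p + D) ^ (4 - 1) * p) * (24 * p * (n * p + D) ^ 2)) ≤
      3 * (((CM + 163840) * T) * (1536 * (n : ℝ) ^ (-(3 * δ)))) := by
        refine mul_le_mul_of_nonneg_left ?_ (by norm_num)
        exact mul_le_mul e1 e5 (by positivity) (by positivity)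
    _ = (4608 * (CM + 163840) * ((n : ℝ) ^ δ)⁻¹) * T * (n : ℝ) ^ (-(2 * δ)) := by
        rw [e6]; ring
    _ ≤ (κ / 2) * T * (n : ℝ) ^ (-(2 * δ)) := by
        refine mul_le_mul_of_nonneg_right ?_ hpos2.le
        exact mul_le_mul_of_nonneg_right e7 hT0.le
    _ = (κ * T / 2) * (n : ℝ) ^ (-(2 * δ)) := by ring
    _ ≤ K₀ * (n : ℝ) ^ (-(2 * δ)) := mul_le_mul_of_nonneg_right hK2 hpos2.le

theorem P2 (ε δ : ℝ) (hδ : 0 < δ) (CM CΔ : ℝ) (hCM : 0 < CM) (hCΔ : 1 ≤ CΔ) :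
    ∀ᶠ n : ℕ in atTop, ∀ p : ℝ, (n : ℝ) ^ (-3 / 4 + ε) ≤ p → p ≤ (n : ℝ) ^ (-2 / 3 - δ) →
      ∀ m : ℕ, 2 ≤ m → m ≤ 5 → ∀ s : ℝ, 0 < s → s ≤ 1 → ∀ b D M₀ Δ₁ A₀ K : ℕ,
      (D : ℝ) ≤ 7 * (n * p) → (n ^ 3 * p ^ 4) * s ^ (m - 1) ≤ (n : ℝ) ^ (3 * δ / 4) →
      0 < s * b → (A₀ : ℝ) ≤ 8 * (s * b) → (M₀ : ℝ) ≤ CM * (n ^ 3 * p ^ 4) * b * s ^ m →
      (Δ₁ : ℝ) ≤ CΔ * (s * (n * p)) → (132 / (3 * δ)) * (s * b) ≤ (K : ℝ) →
      GP n p (fun G => CodeII G m M₀ D Δ₁ A₀ K) ≤ (n : ℝ) ^ (-(s * b)) := by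
  have t2 : Tendsto (fun n : ℕ => (n : ℝ) ^ (3 * δ / 4)) atTop atTop :=
    (tendsto_rpow_atTop (by linarith)).comp tendsto_natCast_atTop_atTop
  filter_upwards [eventually_ge_atTop 2,
    t2.eventually (eventually_ge_atTop (3 * δ * (4608 * (CM + 163840 * CΔ ^ 4)) / 132))] with
    n hn hn3 p hp hp' m hm2 hm5 s hs0 hs1 b D M₀ Δ₁ A₀ K hD hTs hsb hA hM hΔ hK
  have R := rng_of hδ hn hp hp'
  have h0 := R.p0
  have h1 := R.p1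
  have hn1' : (1 : ℝ) ≤ n := by linarith [R.n1]
  have hn0 : (0 : ℝ) < n := by linarith
  obtain ⟨T, hT⟩ : ∃ T : ℝ, T = (n : ℝ) ^ 3 * p ^ 4 := ⟨_, rfl⟩
  have hT0 : 0 < T := by rw [hT]; exact R.T0
  rw [← hT] at hM hTs
  have hKpos : (0 : ℝ) < K := lt_of_lt_of_le (by positivity) hK
  have hK0 : 0 < K := by exact_mod_cast hKpos
  refine (codeII_bound hn h0.le h1 m M₀ D Δ₁ A₀ K (by omega) hm5).trans ?_
  have hd8 : (n : ℝ) * p + D ≤ 8 * (n * p) := by linarith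
  have hd0 : 0 ≤ (n : ℝ) * p + D := by positivity
  have hdd : 0 ≤ (n : ℝ) * p := by positivity
  have hC0 : 0 ≤ CΔ := by linarith
  have hsm : s ^ m = s * s ^ (m - 1) := by
    rw [← pow_succ']
    congr 1
    omega
  have e1 : (M₀ : ℝ) + (if m = 5 then 0 else
        320 * A₀ * (Δ₁ : ℝ) ^ (m - 1) * (n * p + D) ^ (4 - m) * p) ≤
      (CM + 163840 * CΔ ^ 4) * (T * s ^ (m - 1)) * (s * b) := by
    have e0 : CM * T * b * s ^ m = CM * (T * s ^ (m - 1)) * (s * b) := by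
      rw [hsm]; ring
    rw [e0] at hM
    have e9 : (if m = 5 then (0 : ℝ) else
        320 * A₀ * (Δ₁ : ℝ) ^ (m - 1) * (n * p + D) ^ (4 - m) * p) ≤
        163840 * CΔ ^ 4 * (T * s ^ (m - 1)) * (s * b) := by
      split_ifs with h5
      · positivity
      · have f1 : (Δ₁ : ℝ) ^ (m - 1) ≤ (CΔ * (s * (n * p))) ^ (m - 1) :=
          pow_le_pow_left₀ (Nat.cast_nonneg _) hΔ _
        have f2 : ((n : ℝ) * p + D) ^ (4 - m) ≤ (8 * (n * p)) ^ (4 - m) :=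
          pow_le_pow_left₀ hd0 hd8 _
        have f3 : 320 * (A₀ : ℝ) * (Δ₁ : ℝ) ^ (m - 1) * (n * p + D) ^ (4 - m) * p ≤
            320 * (8 * (s * b)) * (CΔ * (s * (n * p))) ^ (m - 1) *
              (8 * (n * p)) ^ (4 - m) * p := by
          gcongr
        refine f3.trans ?_
        have f4 : 320 * (8 * (s * b)) * (CΔ * (s * ((n : ℝ) * p))) ^ (m - 1) *
              (8 * (n * p)) ^ (4 - m) * p =
            (2560 * CΔ ^ (m - 1) * 8 ^ (4 - m)) *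
              (((n : ℝ) * p) ^ (m - 1) * ((n : ℝ) * p) ^ (4 - m) * p) * s ^ (m - 1) * (s * b) := by
          rw [mul_pow, mul_pow, mul_pow]; ring
        have f5 : ((n : ℝ) * p) ^ (m - 1) * ((n : ℝ) * p) ^ (4 - m) * p = T := by
          rw [← pow_add, show m - 1 + (4 - m) = 3 by omega, hT]
          ring
        rw [f4, f5]
        have f6 : CΔ ^ (m - 1) ≤ CΔ ^ 4 := pow_le_pow_right₀ hCΔ (by omega)
        have f7 : (8 : ℝ) ^ (4 - m) ≤ 8 ^ 2 := pow_le_pow_right₀ (by norm_num) (by omega)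
        have f8 : 2560 * CΔ ^ (m - 1) * (8 : ℝ) ^ (4 - m) ≤ 163840 * CΔ ^ 4 := by
          calc 2560 * CΔ ^ (m - 1) * (8 : ℝ) ^ (4 - m) ≤ 2560 * CΔ ^ 4 * 8 ^ 2 := by gcongr
            _ = 163840 * CΔ ^ 4 := by ring
        calc (2560 * CΔ ^ (m - 1) * 8 ^ (4 - m)) * T * s ^ (m - 1) * (s * b) ≤
              (163840 * CΔ ^ 4) * T * s ^ (m - 1) * (s * b) := by gcongr
          _ = _ := by ring
    calc _ ≤ CM * (T * s ^ (m - 1)) * (s * b) +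
          163840 * CΔ ^ 4 * (T * s ^ (m - 1)) * (s * b) := add_le_add hM e9
      _ = _ := by ring
  have e5 : 24 * p * ((n : ℝ) * p + D) ^ 2 ≤ 1536 * (n : ℝ) ^ (-(3 * δ)) := by
    have e2 : ((n : ℝ) * p + D) ^ 2 ≤ (8 * (n * p)) ^ 2 := pow_le_pow_left₀ hd0 hd8 2
    calc 24 * p * ((n : ℝ) * p + D) ^ 2 ≤ 24 * p * (8 * (n * p)) ^ 2 :=
          mul_le_mul_of_nonneg_left e2 (by positivity)
      _ = 1536 * ((n : ℝ) ^ 2 * p ^ 3) := by ring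
      _ ≤ _ := mul_le_mul_of_nonneg_left R.lam (by norm_num)
  have hif0 : 0 ≤ (if m = 5 then (0 : ℝ) else
        320 * A₀ * (Δ₁ : ℝ) ^ (m - 1) * (n * p + D) ^ (4 - m) * p) := by
    split_ifs <;> positivity
  refine union_numeric (x := 32 * (s * b)) (y := s * b) (c := 3 * δ / 2) hn1' (by positivity) hK0
    ?_ (by push_cast; linarith) ?_
  · have hpos : 0 < (n : ℝ) ^ (3 * δ / 4) := Real.rpow_pos_of_pos hn0 _
    have hpos2 : 0 < (n : ℝ) ^ (-(3 * δ / 2)) := Real.rpow_pos_of_pos hn0 _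
    have e6 : (n : ℝ) ^ (3 * δ / 4) * (n : ℝ) ^ (-(3 * δ)) =
        (n : ℝ) ^ (-(3 * δ / 2)) * ((n : ℝ) ^ (3 * δ / 4))⁻¹ := by
      rw [← Real.rpow_neg hn0.le, ← Real.rpow_add hn0, ← Real.rpow_add hn0]
      congr 1
      ring
    have e7 : 4608 * (CM + 163840 * CΔ ^ 4) * ((n : ℝ) ^ (3 * δ / 4))⁻¹ ≤ 132 / (3 * δ) := by
      rw [← div_eq_mul_inv, div_le_iff₀ hpos, div_mul_eq_mul_div, le_div_iff₀ (by positivity)]
      have : 3 * δ * (4608 * (CM + 163840 * CΔ ^ 4)) ≤ (n : ℝ) ^ (3 * δ / 4) * 132 := by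
        rwa [div_le_iff₀ (by norm_num)] at hn3
      linarith
    have e8 : 0 ≤ (CM + 163840 * CΔ ^ 4) := by positivity
    calc 3 * (((M₀ : ℝ) + (if m = 5 then 0 else
        320 * A₀ * (Δ₁ : ℝ) ^ (m - 1) * (n * p + D) ^ (4 - m) * p)) *
          (24 * p * (n * p + D) ^ 2)) ≤
        3 * (((CM + 163840 * CΔ ^ 4) * (T * s ^ (m - 1)) * (s * b)) *
          (1536 * (n : ℝ) ^ (-(3 * δ)))) := by
          refine mul_le_mul_of_nonneg_left ?_ (by norm_num)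
          exact mul_le_mul e1 e5 (by positivity) (by positivity)
      _ ≤ 3 * (((CM + 163840 * CΔ ^ 4) * (n : ℝ) ^ (3 * δ / 4) * (s * b)) *
          (1536 * (n : ℝ) ^ (-(3 * δ)))) := by gcongr
      _ = (4608 * (CM + 163840 * CΔ ^ 4)) * ((n : ℝ) ^ (3 * δ / 4) * (n : ℝ) ^ (-(3 * δ))) *
          (s * b) := by ring
      _ = (4608 * (CM + 163840 * CΔ ^ 4) * ((n : ℝ) ^ (3 * δ / 4))⁻¹) * (s * b) *
          (n : ℝ) ^ (-(3 * δ / 2)) := by rw [e6]; ring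
      _ ≤ (132 / (3 * δ)) * (s * b) * (n : ℝ) ^ (-(3 * δ / 2)) := by gcongr
      _ ≤ K * (n : ℝ) ^ (-(3 * δ / 2)) := mul_le_mul_of_nonneg_right hK hpos2.le
  · have := mul_le_mul_of_nonneg_left hK (show 0 ≤ 3 * δ / 2 by linarith)
    have e10 : 3 * δ / 2 * (132 / (3 * δ) * (s * b)) = 66 * (s * b) := by
      field_simp
      ring
    rw [e10] at this
    linarith

theorem P3 (ε δ : ℝ) (hδ : 0 < δ) (KA : ℕ) (s₀ : ℝ) (hs₀ : 0 < s₀)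
    (hs : (2 + 2 * (KA : ℝ)) * (8 * s₀) ≤ 1 / 2304) :
    ∀ᶠ n : ℕ in atTop, ∀ p : ℝ, (n : ℝ) ^ (-3 / 4 + ε) ≤ p → p ≤ (n : ℝ) ^ (-2 / 3 - δ) →
      ∀ b D A₀ : ℕ, 288 ≤ b → (D : ℝ) ≤ 7 * (n * p) → (A₀ : ℝ) ≤ 8 * (s₀ * b) →
      GP n p (fun G => CodeI G D A₀ KA (b / 144)) ≤ (n : ℝ) ^ (-((b : ℝ) / 2304)) := by
  have t2 : Tendsto (fun n : ℕ => (n : ℝ) ^ (1 / 12 : ℝ)) atTop atTop :=
    (tendsto_rpow_atTop (by norm_num)).comp tendsto_natCast_atTop_atTop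
  filter_upwards [eventually_ge_atTop 2,
    t2.eventually (eventually_ge_atTop (864 * (64 * s₀ * 15 ^ 3 * (4 * (KA : ℝ) + 1) ^ 2)))] with
    n hn hn3 p hp hp' b D A₀ hb hD hA
  have R := rng_of hδ hn hp hp'
  have h0 := R.p0
  have h1 := R.p1
  have hn2' : (2 : ℝ) ≤ n := R.n1
  have hn1' : (1 : ℝ) ≤ n := by linarith
  have hn0 : (0 : ℝ) < n := by linarith
  have hb' : (288 : ℝ) ≤ b := by exact_mod_cast hb
  obtain ⟨K, hK⟩ : ∃ K : ℕ, K = b / 144 := ⟨_, rfl⟩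
  rw [← hK]
  have hK1 : (b : ℝ) / 288 ≤ K := by
    have : b ≤ 288 * K := by omega
    have : (b : ℝ) ≤ 288 * K := by exact_mod_cast this
    linarith
  have hK0 : 0 < K := by omega
  refine (codeI_bound hn h0.le h1 D A₀ KA K).trans ?_
  have hn1 : ((n : ℝ) + 1) ^ (KA * A₀) ≤ (n : ℝ) ^ (2 * (KA * A₀)) := by
    rw [pow_mul (n : ℝ) 2]
    exact pow_le_pow_left₀ (by positivity) (by nlinarith) _
  have hw : 8 * (A₀ : ℝ) * (n * p + 2 * D) ^ 3 * (4 * KA + 1) ^ 2 * p ^ 2 ≤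
      (64 * s₀ * 15 ^ 3 * (4 * (KA : ℝ) + 1) ^ 2) * b * (n : ℝ) ^ (-(1 / 3) : ℝ) := by
    have e1 : (n : ℝ) * p + 2 * D ≤ 15 * (n * p) := by linarith
    calc 8 * (A₀ : ℝ) * (n * p + 2 * D) ^ 3 * (4 * KA + 1) ^ 2 * p ^ 2 ≤
          8 * (8 * (s₀ * b)) * (15 * (n * p)) ^ 3 * (4 * KA + 1) ^ 2 * p ^ 2 := by gcongr
      _ = (64 * s₀ * 15 ^ 3 * (4 * (KA : ℝ) + 1) ^ 2) * b * ((n : ℝ) ^ 3 * p ^ 5) := by ring
      _ ≤ _ := mul_le_mul_of_nonneg_left R.d5 (by positivity)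
  have hmain := union_numeric (n := n) (K := K) (E := 2 * A₀ + 2 * (KA * A₀))
    (w := 8 * (A₀ : ℝ) * (n * p + 2 * D) ^ 3 * (4 * KA + 1) ^ 2 * p ^ 2) (x := (b : ℝ) / 2304)
    (y := (b : ℝ) / 2304) (c := 1 / 4) hn1' (by positivity) hK0 ?_ ?_ (by linarith)
  · refine le_trans ?_ hmain
    rw [pow_add]
    refine mul_le_mul_of_nonneg_right ?_ (by positivity)
    exact mul_le_mul_of_nonneg_left hn1 (by positivity)
  · have e6 : (n : ℝ) ^ (-(1 / 3) : ℝ) = (n : ℝ) ^ (-(1 / 4) : ℝ) * ((n : ℝ) ^ (1 / 12 : ℝ))⁻¹ := by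
      rw [← Real.rpow_neg hn0.le, ← Real.rpow_add hn0]
      congr 1
      norm_num
    have hpos : 0 < (n : ℝ) ^ (1 / 12 : ℝ) := Real.rpow_pos_of_pos hn0 _
    have hpos2 : 0 < (n : ℝ) ^ (-(1 / 4) : ℝ) := Real.rpow_pos_of_pos hn0 _
    have e7 : 3 * (64 * s₀ * 15 ^ 3 * (4 * (KA : ℝ) + 1) ^ 2) * ((n : ℝ) ^ (1 / 12 : ℝ))⁻¹ ≤
        1 / 288 := by
      rw [← div_eq_mul_inv, div_le_iff₀ hpos]
      linarith
    calc 3 * (8 * (A₀ : ℝ) * (n * p + 2 * D) ^ 3 * (4 * KA + 1) ^ 2 * p ^ 2) ≤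
          3 * ((64 * s₀ * 15 ^ 3 * (4 * (KA : ℝ) + 1) ^ 2) * b * (n : ℝ) ^ (-(1 / 3) : ℝ)) :=
          mul_le_mul_of_nonneg_left hw (by norm_num)
      _ = (3 * (64 * s₀ * 15 ^ 3 * (4 * (KA : ℝ) + 1) ^ 2) * ((n : ℝ) ^ (1 / 12 : ℝ))⁻¹) * b *
          (n : ℝ) ^ (-(1 / 4) : ℝ) := by rw [e6]; ring
      _ ≤ (1 / 288) * b * (n : ℝ) ^ (-(1 / 4) : ℝ) := by gcongr
      _ = (b : ℝ) / 288 * (n : ℝ) ^ (-(1 / 4) : ℝ) := by ring
      _ ≤ K * (n : ℝ) ^ (-(1 / 4) : ℝ) := mul_le_mul_of_nonneg_right hK1 hpos2.le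
  · push_cast
    have e1 : 2 * (A₀ : ℝ) + 2 * (KA * A₀) = (2 + 2 * (KA : ℝ)) * A₀ := by ring
    rw [e1]
    calc (2 + 2 * (KA : ℝ)) * A₀ ≤ (2 + 2 * (KA : ℝ)) * (8 * (s₀ * b)) := by gcongr
      _ = ((2 + 2 * (KA : ℝ)) * (8 * s₀)) * b := by ring
      _ ≤ (1 / 2304) * b := mul_le_mul_of_nonneg_right hs (by positivity)
      _ = (b : ℝ) / 2304 := by ring

end Pool.Agent.H49.Shot
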