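import Mathlib
import Pool.Agent.H49.Shot.TypC

/-!
# Typical degrees and codegrees in range (B)
-/

set_option autoImplicit false

open Finset Classical Filter Topology

namespace Pool.Agent.H49.Shot

open Pool.Agent.H90.Shot

theorem typB (η : ℝ) (hη : 0 < η) : ∀ᶠ n : ℕ in atTop, ∀ p : ℝ,
    (n : ℝ) ^ (-(2 / 3 : ℝ) - 1 / 10000) ≤ p → n * p ^ 2 ≤ 3 * Real.log n →
    GP n p (fun G => ¬ ((∀ v, n * p / 4 ≤ ((univ.filter fun z => G.Adj v z).card : ℝ) ∧
      ((univ.filter fun z => G.Adj v z).card : ℝ) ≤ 6 * n * p) ∧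
      ∀ u v, u ≠ v → ((univ.filter fun z => G.Adj u z ∧ G.Adj z v).card : ℝ) ≤
        60 * Real.log n)) ≤ η := by
  have t1 := tendsto_sq_mul_exp (a := 1 / 4) (c := 1) (by norm_num) one_pos
  have t2 := tendsto_sq_mul_exp (a := 1 / 4) (c := 1 / 16) (by norm_num) (by norm_num)
  have t3 : Tendsto (fun n : ℕ => (n : ℝ) ^ (-1 : ℝ)) atTop (𝓝 0) :=
    (tendsto_rpow_neg_atTop (by norm_num)).comp tendsto_natCast_atTop_atTop
  have t4 := (t1.add t2).add t3
  simp only [add_zero] at t4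
  have t5 : Tendsto (fun n : ℕ => Real.log n / n) atTop (𝓝 0) := by
    have h := Real.isLittleO_log_id_atTop.tendsto_div_nhds_zero
    exact h.comp tendsto_natCast_atTop_atTop
  filter_upwards [t4.eventually (gt_mem_nhds hη), eventually_ge_atTop 3,
    t5.eventually (gt_mem_nhds (show (0 : ℝ) < 1 / 3 by norm_num))] with n hn hn3 hlog p hp hp'
  have hn3' : (3 : ℝ) ≤ n := by exact_mod_cast hn3
  have hn1 : (1 : ℝ) ≤ n := by linarith
  have hn0 : (0 : ℝ) < n := by linarith
  have h0 : 0 < p := lt_of_lt_of_le (Real.rpow_pos_of_pos hn0 _) hp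
  have hL0 : 0 ≤ Real.log n := Real.log_nonneg hn1
  have hL1 : 1 ≤ Real.log n := by
    rw [Real.le_log_iff_exp_le hn0]
    have := Real.exp_one_lt_d9
    linarith
  have h1 : p ≤ 1 := by
    rw [div_lt_iff₀ hn0] at hlog
    by_contra hcon
    have h2 : 1 < p := not_le.mp hcon
    have h3 : 1 < p ^ 2 := by nlinarith
    nlinarith
  have hnp : (n : ℝ) ^ (1 / 4 : ℝ) ≤ n * p := by
    calc (n : ℝ) ^ (1 / 4 : ℝ) ≤ (n : ℝ) ^ (1 + (-(2 / 3 : ℝ) - 1 / 10000)) :=
          Real.rpow_le_rpow_of_exponent_le hn1 (by norm_num)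
      _ = n * (n : ℝ) ^ (-(2 / 3 : ℝ) - 1 / 10000) := by
          rw [← Real.rpow_one_add' hn0.le (by norm_num)]
      _ ≤ n * p := mul_le_mul_of_nonneg_left hp hn0.le
  -- lower degrees
  have F1 : GP n p (fun G => ∃ v, ((nbr G v).card : ℝ) < n * p / 4) ≤
      (n : ℝ) ^ 2 * Real.exp (-((1 / 16) * (n : ℝ) ^ (1 / 4 : ℝ))) := by
    have e1 : ∀ v : Fin n, GP n p (fun G => ((nbr G v).card : ℝ) < n * p / 4) ≤
        Real.exp (-((1 / 16) * (n : ℝ) ^ (1 / 4 : ℝ))) := by
      intro v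
      have hc : ((univ.erase v : Finset (Fin n)).card : ℝ) = n - 1 := by
        rw [Finset.card_erase_of_mem (Finset.mem_univ v), Finset.card_univ, Fintype.card_fin,
          Nat.cast_sub (by omega)]
        norm_num
      have h2 := GP_nbr_low h0.le h1 v (univ.erase v) (Finset.notMem_erase v univ)
      rw [hc] at h2
      refine (GP_mono h0.le h1 (fun G hG => ?_)).trans (h2.trans (Real.exp_le_exp.mpr ?_))
      · have h3 : ((univ.erase v).filter (fun z => G.Adj v z)).card ≤ (nbr G v).card := by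
          refine Finset.card_le_card ?_
          intro z hz
          rw [Finset.mem_filter] at hz
          exact mem_nbr.mpr hz.2
        have h4 : (((univ.erase v).filter (fun z => G.Adj v z)).card : ℝ) ≤ (nbr G v).card :=
          Nat.cast_le.mpr h3
        refine h4.trans (hG.le.trans ?_)
        nlinarith
      · have : (n : ℝ) * p / 16 ≤ p * (n - 1) / 8 := by nlinarith
        linarith
    refine (GP_exists1 h0.le h1 _ _ e1).trans ?_
    refine mul_le_mul_of_nonneg_right ?_ (Real.exp_pos _).le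
    nlinarith
  -- upper degrees
  have F2 : GP n p (fun G => ∃ v, ⌊6 * n * p⌋₊ < (nbr G v).card) ≤
      (n : ℝ) ^ 2 * Real.exp (-(1 * (n : ℝ) ^ (1 / 4 : ℝ))) := by
    have hD := Nat.lt_floor_add_one (6 * n * p)
    have e1 : ∀ v : Fin n, GP n p (fun G => ⌊6 * n * p⌋₊ < (nbr G v).card) ≤
        Real.exp (-(1 * (n : ℝ) ^ (1 / 4 : ℝ))) := by
      intro v
      refine (GP_deg h0.le h1 _ v).trans ((choose_mul_pow_le h0.le ?_).trans
        (half_pow_le_exp _ ?_))
      · push_cast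
        linarith
      · push_cast
        nlinarith
    refine (GP_exists1 h0.le h1 _ _ e1).trans ?_
    refine mul_le_mul_of_nonneg_right ?_ (Real.exp_pos _).le
    nlinarith
  -- codegrees
  have F3 : GP n p (fun G => ∃ u v, u ≠ v ∧ ⌊60 * Real.log n⌋₊ < (cod G u v).card) ≤
      (n : ℝ) ^ (-1 : ℝ) := by
    have hD := Nat.lt_floor_add_one (60 * Real.log n)
    have e1 : ∀ u v : Fin n, u ≠ v → GP n p (fun G => ⌊60 * Real.log n⌋₊ < (cod G u v).card) ≤
        Real.exp (-(3 * Real.log n)) := by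
      intro u v huv
      refine (GP_codeg h0.le h1 _ huv).trans ((choose_mul_pow_le (by positivity) ?_).trans
        (half_pow_le_exp _ ?_))
      · push_cast
        linarith
      · push_cast
        linarith
    refine (GP_exists2 h0.le h1 _ _ (Real.exp_pos _).le e1).trans (le_of_eq ?_)
    rw [Real.exp_neg, mul_comm (3 : ℝ), Real.exp_mul, Real.exp_log hn0, Real.rpow_neg_one]
    norm_num
    field_simp
  have hincl : GP n p (fun G => ¬ ((∀ v, n * p / 4 ≤ ((univ.filter fun z => G.Adj v z).card : ℝ) ∧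
      ((univ.filter fun z => G.Adj v z).card : ℝ) ≤ 6 * n * p) ∧
      ∀ u v, u ≠ v → ((univ.filter fun z => G.Adj u z ∧ G.Adj z v).card : ℝ) ≤
        60 * Real.log n)) ≤
      GP n p (fun G => (∃ v, ((nbr G v).card : ℝ) < n * p / 4) ∨
        ((∃ v, ⌊6 * n * p⌋₊ < (nbr G v).card) ∨
        (∃ u v, u ≠ v ∧ ⌊60 * Real.log n⌋₊ < (cod G u v).card))) := by
    refine GP_mono h0.le h1 (fun G hG => ?_)
    by_contra hcon
    rw [not_or, not_or] at hcon
    obtain ⟨g1, g2, g3⟩ := hcon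
    apply hG
    refine ⟨fun v => ⟨?_, ?_⟩, fun u v huv => ?_⟩
    · by_contra hc
      exact g1 ⟨v, not_le.mp hc⟩
    · have h2 : (nbr G v).card ≤ ⌊6 * n * p⌋₊ := by
        by_contra hc
        exact g2 ⟨v, not_le.mp hc⟩
      have h3 : ((nbr G v).card : ℝ) ≤ 6 * n * p :=
        (Nat.cast_le.mpr h2).trans (Nat.floor_le (by positivity))
      exact h3
    · have h2 : (cod G u v).card ≤ ⌊60 * Real.log n⌋₊ := by
        by_contra hc
        exact g3 ⟨u, v, huv, not_le.mp hc⟩
      have h3 : ((cod G u v).card : ℝ) ≤ 60 * Real.log n :=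
        (Nat.cast_le.mpr h2).trans (Nat.floor_le (by positivity))
      exact h3
  refine hincl.trans ((GP_or_le h0.le h1 _ _).trans ?_)
  have h5 := GP_or_le h0.le h1 (n := n) (fun G => ∃ v, ⌊6 * n * p⌋₊ < (nbr G v).card)
    (fun G => ∃ u v, u ≠ v ∧ ⌊60 * Real.log n⌋₊ < (cod G u v).card)
  linarith

end Pool.Agent.H49.Shot
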